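import Mathlib
import Pool.Agent.V1168.EV.Defs

/-!
# Products with all varieties, exceptional factors: definitions
-/

set_option autoImplicit false

namespace Pool.Agent.V1168.EF

open NumberField Polynomial Pool.Agent.Y1.CT Pool.Agent.V1168.EV

/-- The finite set `Ω` consists of algebraic numbers like the Frobenius eigenvalues of a variety: it is
stable under all automorphisms of the field of complex numbers, which commute on it with the complex
conjugation (its elements lie in CM fields or in totally real fields). -/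
structure IsStable (Ω : Finset ℂ) : Prop where
  map_mem : ∀ β ∈ Ω, ∀ τ : ℂ ≃+* ℂ, τ β ∈ Ω
  map_conj : ∀ β ∈ Ω, ∀ τ : ℂ ≃+* ℂ, τ (starRingEnd ℂ β) = starRingEnd ℂ (τ β)
  ne_zero : ∀ β ∈ Ω, β ≠ 0

/-- The number `ρ` is not zero, and a power of it is a product of powers of elements of `Ω` and of a
power of `p`. -/
def Generated (p : ℕ) (Ω : Finset ℂ) (ρ : ℂ) : Prop :=
  ρ ≠ 0 ∧ ∃ (m : ℕ) (n : ℂ → ℤ) (k : ℤ), 0 < m ∧ ρ ^ m = (∏ β ∈ Ω, β ^ n β) * (p : ℂ) ^ k

/-- A property `P q f` of a prime power `q` and finite families of polynomials `f` holds for all families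
of monic polynomials `f i`, `i` in a finite set `J` disjoint from `S`, whose complex roots are
conjugates of `π i`. -/
def ForAllPolys {I : Type} {K : I → Type} [∀ i, Field (K i)] (π : ∀ i, K i) (q : ℕ) (S : Finset I)
    (P : ∀ J : Type, ℕ → (J → ℤ[X]) → Prop) : Prop :=
  ∀ J : Finset I, Disjoint J S → ∀ f : {i // i ∈ J} → ℤ[X], (∀ i, IsPolyOf (π i.1) (f i)) →
    P {i // i ∈ J} q f

end Pool.Agent.V1168.EF
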