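import Mathlib
import Pool.Agent.V1168.EF.Defs
import Pool.Agent.V1168.EV.Split

/-!
# The exceptional factors
-/

set_option autoImplicit false
set_option linter.unusedSectionVars false
set_option linter.unusedVariables false

namespace Pool.Agent.V1168.EF

open NumberField Finset Module Polynomial Pool.Agent.Y1.CT Pool.Agent.TH170.MF Pool.Agent.TH170
  Pool.Agent.V1168.EV

section comb

variable {I : Type} [Fintype I] {K : I → Type} [∀ i, Field (K i)] [∀ i, NumberField (K i)]
  [∀ i, IsCMField (K i)]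

/-- The function of the automorphisms given by an embedding. -/
def orb (x : Emb K → ℝ) (y : Emb K) : (ℂ ≃+* ℂ) → ℝ := fun σ => x (act σ y)

/-- The subspace is stable under translations. -/
def Translates (F : Submodule ℝ ((ℂ ≃+* ℂ) → ℝ)) : Prop :=
  ∀ f ∈ F, ∀ τ : ℂ ≃+* ℂ, (fun σ => f (τ.trans σ)) ∈ F

variable (hsep : PairFlips K)

include hsep in
/-- The translates of a relation generate the functions of the embeddings. -/
theorem orb_mem {F : Submodule ℝ ((ℂ ≃+* ℂ) → ℝ)} (hF : Translates F) {x n : Emb K → ℝ}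
    (hx : Odd' x) (hn : Odd' n) (h : (fun σ => ∑ y, n y * x (act σ y)) ∈ F) {y₀ : Emb K}
    (hy₀ : n y₀ ≠ 0) : orb x y₀ ∈ F := by
  classical
  -- the sum over the stabilizer
  have h1 : ∀ e ∈ stab y₀, (fun σ : ℂ ≃+* ℂ => ∑ y, n y * x (act σ (e y))) ∈ F := by
    intro e he
    obtain ⟨τ, h2, -⟩ := mem_stab.1 he
    have h3 := hF _ h τ
    refine (congrArg (· ∈ F) ?_).mp h3
    funext σ
    refine Finset.sum_congr rfl fun y _ => ?_
    rw [act_trans, h2]
  have h2 : (fun σ : ℂ ≃+* ℂ => ∑ e ∈ stab y₀, ∑ y, n y * x (act σ (e y))) ∈ F := by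
    have h3 := Submodule.sum_mem F h1
    refine (congrArg (· ∈ F) ?_).mp h3
    funext σ
    rw [Finset.sum_apply]
  have h3 : ∀ σ : ℂ ≃+* ℂ, ∑ e ∈ stab y₀, ∑ y, n y * x (act σ (e y)) =
      2 * (stab y₀).card * n y₀ * x (act σ y₀) := by
    intro σ
    have h4 : ∀ e ∈ stab y₀, ∑ y, n y * x (act σ (e y)) =
        ∑ y, n ((e⁻¹ : Equiv.Perm (Emb K)) y) * x (act σ y) := by
      intro e _
      refine Fintype.sum_equiv e _ _ fun y => ?_
      have h9 : (e⁻¹ : Equiv.Perm (Emb K)) (e y) = y := e.symm_apply_apply y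
      rw [h9]
    rw [Finset.sum_congr rfl h4, Finset.sum_comm]
    have h5 : ∀ y, ∑ e ∈ stab y₀, n ((e⁻¹ : Equiv.Perm (Emb K)) y) * x (act σ y) =
        (stab y₀).card * n y₀ * ((if y = y₀ then x (act σ y) else 0) -
          (if y = EV.bar y₀ then x (act σ y) else 0)) := by
      intro y
      rw [← Finset.sum_mul]
      have h6 : ∑ e ∈ stab y₀, n ((e⁻¹ : Equiv.Perm (Emb K)) y) = ∑ e ∈ stab y₀, n (e y) := by
        refine Finset.sum_nbij' (fun e => e⁻¹) (fun e => e⁻¹) (fun e he => inv_mem_stab he)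
          (fun e he => inv_mem_stab he) (fun e _ => inv_inv e) (fun e _ => inv_inv e)
          (fun e _ => rfl)
      rw [h6, sum_stab hsep hn]
      split_ifs <;> ring
    rw [Finset.sum_congr rfl fun y _ => h5 y, ← Finset.mul_sum, Finset.sum_sub_distrib,
      Finset.sum_ite_eq', Finset.sum_ite_eq', if_pos (Finset.mem_univ _),
      if_pos (Finset.mem_univ _), act_bar, hx]
    ring
  have h4 : (fun σ : ℂ ≃+* ℂ => ∑ e ∈ stab y₀, ∑ y, n y * x (act σ (e y))) =
      (2 * (stab y₀).card * n y₀) • orb x y₀ := by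
    funext σ
    rw [h3 σ]
    rfl
  rw [h4] at h2
  have h5 : (2 * ((stab y₀).card : ℝ) * n y₀) ≠ 0 := by
    have h6 : 0 < (stab y₀).card := Finset.card_pos.2 ⟨1, one_mem_stab _⟩
    have h7 : ((stab y₀).card : ℝ) ≠ 0 := by exact_mod_cast h6.ne'
    exact mul_ne_zero (mul_ne_zero two_ne_zero h7) hy₀
  have h6 := F.smul_mem (2 * ((stab y₀).card : ℝ) * n y₀)⁻¹ h2
  rwa [smul_smul, inv_mul_cancel₀ h5, one_smul] at h6

include hsep in
/-- All embeddings of the same field. -/
theorem orb_mem_all {F : Submodule ℝ ((ℂ ≃+* ℂ) → ℝ)} (hF : Translates F) {x n : Emb K → ℝ}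
    (hx : Odd' x) (hn : Odd' n) (h : (fun σ => ∑ y, n y * x (act σ y)) ∈ F) {i : I}
    {φ : K i →+* ℂ} (hy₀ : n ⟨i, φ⟩ ≠ 0) (ψ : K i →+* ℂ) : orb x ⟨i, ψ⟩ ∈ F := by
  obtain ⟨τ, hτ⟩ := exists_comp_eq (K i) φ ψ
  have h1 := hF _ (orb_mem hsep hF hx hn h hy₀) τ
  have h2 : (⟨i, ψ⟩ : Emb K) = act τ ⟨i, φ⟩ := Sigma.ext rfl (heq_of_eq hτ.symm)
  refine (congrArg (· ∈ F) ?_).mp h1
  funext σ
  change x (act (τ.trans σ) ⟨i, φ⟩) = x (act σ ⟨i, ψ⟩)
  rw [act_trans, h2]

/-- One embedding for each infinite place. -/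
noncomputable def emb (z : Σ i, InfinitePlace (K i)) : Emb K := ⟨z.1, z.2.embedding⟩

theorem emb_injective : Function.Injective (emb (K := K)) := by
  rintro ⟨i, w⟩ ⟨j, v⟩ h
  obtain ⟨h1, h2⟩ := Sigma.mk.inj h
  have h1' : i = j := h1
  subst h1'
  have h3 : w.embedding = v.embedding := eq_of_heq h2
  have h4 : w = v := by
    rw [← InfinitePlace.mk_embedding w, ← InfinitePlace.mk_embedding v, h3]
  rw [h4]

theorem bar_emb_ne (z z' : Σ i, InfinitePlace (K i)) : EV.bar (emb z) ≠ emb z' := by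
  obtain ⟨i, w⟩ := z
  obtain ⟨j, v⟩ := z'
  intro h
  obtain ⟨h1, h2⟩ := Sigma.mk.inj h
  have h1' : i = j := h1
  subst h1'
  have h3 : ComplexEmbedding.conjugate w.embedding = v.embedding := eq_of_heq h2
  have h4 : w = v := by
    rw [← InfinitePlace.mk_embedding w, ← InfinitePlace.mk_embedding v, ← h3,
      InfinitePlace.mk_conjugate_eq]
  rw [h4] at h3
  exact conj_ne' _ h3

include hsep in
/-- The functions of the embeddings, one of each conjugate pair, are linearly independent. -/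
theorem linearIndependent_orb {x : Emb K → ℝ} (hx : Good' x) :
    LinearIndependent ℝ (fun z : Σ i, InfinitePlace (K i) => orb x (emb z)) := by
  classical
  have hfin : Fintype (Σ i, InfinitePlace (K i)) := inferInstance
  rw [Fintype.linearIndependent_iff]
  intro c hc z
  let m : Emb K → ℝ := fun y => ∑ z, (if emb z = y then c z else 0)
  have h1 : ∀ σ : ℂ ≃+* ℂ, ∑ y, m y * x (act σ y) = 0 := by
    intro σ
    have h2 := congrFun hc σ
    rw [Finset.sum_apply] at h2
    simp only [m, Finset.sum_mul]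
    rw [Finset.sum_comm]
    refine Eq.trans (Finset.sum_congr rfl fun z _ => ?_) h2
    rw [Finset.sum_eq_single (emb z)]
    · rw [if_pos rfl]
      rfl
    · intro y _ hy
      rw [if_neg (Ne.symm hy), zero_mul]
    · intro h
      exact absurd (Finset.mem_univ _) h
  have h2 := zero_of hsep hx (n := fun y => m y - m (EV.bar y)) (fun y => by
      change m (EV.bar y) - m (EV.bar (EV.bar y)) = -(m y - m (EV.bar y))
      rw [bar_bar]
      ring) (fun σ => by
      change ∑ y, (m y - m (EV.bar y)) * x (act σ y) = 0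
      rw [sum_odd hx.1, h1, mul_zero])
  have h3 := congrFun h2 (emb z)
  have h4 : m (emb z) = c z := by
    simp only [m]
    rw [Finset.sum_eq_single z]
    · rw [if_pos rfl]
    · intro z' _ hz'
      rw [if_neg fun h => hz' (emb_injective h)]
    · intro h
      exact absurd (Finset.mem_univ _) h
  have h5 : m (EV.bar (emb z)) = 0 := by
    simp only [m]
    refine Finset.sum_eq_zero fun z' _ => ?_
    rw [if_neg fun h => bar_emb_ne z z' h.symm]
  have h6 : m (emb z) - m (EV.bar (emb z)) = 0 := h3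
  rw [h4, h5, sub_zero] at h6
  exact h6

/-- The number of the infinite places of a CM field. -/
theorem two_mul_places (i : I) : 2 * Fintype.card (InfinitePlace (K i)) = finrank ℚ (K i) := by
  classical
  have h1 := InfinitePlace.card_add_two_mul_card_eq_rank (K i)
  have h2 : InfinitePlace.nrRealPlaces (K i) = 0 :=
    IsTotallyComplex.nrRealPlaces_eq_zero (K i)
  have h3 := InfinitePlace.card_eq_nrRealPlaces_add_nrComplexPlaces (K := K i)
  omega

include hsep in
/-- **The exceptional factors.** -/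
theorem sum_le {F : Submodule ℝ ((ℂ ≃+* ℂ) → ℝ)} [FiniteDimensional ℝ F] {x : Emb K → ℝ}
    (hx : Good' x) (S : Finset I) (hS : ∀ i ∈ S, ∀ φ : K i →+* ℂ, orb x ⟨i, φ⟩ ∈ F) :
    ∑ i ∈ S, finrank ℚ (K i) ≤ 2 * finrank ℝ F := by
  classical
  let X := Σ i : {i // i ∈ S}, InfinitePlace (K i.1)
  let ι : X → Σ i, InfinitePlace (K i) := fun z => ⟨z.1.1, z.2⟩
  have hι : Function.Injective ι := by
    rintro ⟨⟨i, hi⟩, w⟩ ⟨⟨j, hj⟩, v⟩ h
    obtain ⟨h1, h2⟩ := Sigma.mk.inj h
    have h1' : i = j := h1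
    subst h1'
    have h3 : w = v := eq_of_heq h2
    rw [h3]
  have h1 := (linearIndependent_orb hsep hx).comp ι hι
  let v : X → F := fun z => ⟨orb x (emb (ι z)), hS z.1.1 z.1.2 _⟩
  have h2 : LinearIndependent ℝ v := by
    refine LinearIndependent.of_comp F.subtype ?_
    exact h1
  have h3 := h2.fintype_card_le_finrank
  have h4 : Fintype.card X = ∑ i ∈ S, Fintype.card (InfinitePlace (K i)) := by
    rw [Fintype.card_sigma, ← Finset.sum_coe_sort S
      (fun i => Fintype.card (InfinitePlace (K i)))]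
  calc ∑ i ∈ S, finrank ℚ (K i) = ∑ i ∈ S, 2 * Fintype.card (InfinitePlace (K i)) :=
        Finset.sum_congr rfl fun i _ => (two_mul_places i).symm
    _ = 2 * Fintype.card X := by rw [h4, Finset.mul_sum]
    _ ≤ 2 * finrank ℝ F := by omega

end comb

section span

variable {p : ℕ} [Fact p.Prime] (ν : PadicAlgCl p ≃+* ℂ) (Ω : Finset ℂ)

/-- The odd part of the logarithms of the absolute values of the conjugates of `β`. -/
noncomputable def oddLog (β : ℂ) : (ℂ ≃+* ℂ) → ℝ := fun σ =>
  lg ν (σ β) - lg ν ((σ.trans starRingAut) β)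

/-- The space generated by these functions. -/
noncomputable def logSpan : Submodule ℝ ((ℂ ≃+* ℂ) → ℝ) :=
  Submodule.span ℝ (oddLog ν '' (Ω : Set ℂ))

instance : FiniteDimensional ℝ (logSpan ν Ω) :=
  FiniteDimensional.span_of_finite ℝ (Ω.finite_toSet.image _)

variable {ν Ω}

theorem oddLog_mem {β : ℂ} (h : β ∈ Ω) : oddLog ν β ∈ logSpan ν Ω :=
  Submodule.subset_span ⟨β, h, rfl⟩

theorem translates_logSpan (hΩ : IsStable Ω) : Translates (logSpan ν Ω) := by
  classical
  intro f hf τ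
  let T : ((ℂ ≃+* ℂ) → ℝ) →ₗ[ℝ] ((ℂ ≃+* ℂ) → ℝ) :=
    { toFun := fun f σ => f (τ.trans σ)
      map_add' := fun _ _ => rfl
      map_smul' := fun _ _ => rfl }
  have h1 : logSpan ν Ω ≤ (logSpan ν Ω).comap T := by
    unfold logSpan
    rw [Submodule.span_le]
    rintro _ ⟨β, hβ, rfl⟩
    change T (oddLog ν β) ∈ logSpan ν Ω
    have h2 : T (oddLog ν β) = oddLog ν (τ β) := rfl
    rw [h2]
    exact oddLog_mem (hΩ.map_mem β hβ τ)
  exact h1 hf

theorem oddLog_conj (hΩ : IsStable Ω) {β : ℂ} (h : β ∈ Ω) :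
    oddLog ν (starRingEnd ℂ β) = - oddLog ν β := by
  funext σ
  have h1 := hΩ.map_conj β h σ
  have h2 : (σ.trans starRingAut) (starRingEnd ℂ β) = σ β := by
    change starRingEnd ℂ (σ (starRingEnd ℂ β)) = σ β
    rw [h1, starRingEnd_self_apply]
  have h3 : (σ.trans starRingAut) β = starRingEnd ℂ (σ β) := rfl
  change lg ν (σ (starRingEnd ℂ β)) - lg ν ((σ.trans starRingAut) (starRingEnd ℂ β)) =
    -(lg ν (σ β) - lg ν ((σ.trans starRingAut) β))
  rw [h2, h3, h1]
  ring

open Classical in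
theorem finrank_logSpan (hΩ : IsStable Ω) : 2 * finrank ℝ (logSpan ν Ω) ≤ Ω.card := by
  let P : Finset ℂ := Ω.filter fun β => 0 < β.im
  have hconj : ∀ β ∈ Ω, starRingEnd ℂ β ∈ Ω := fun β hβ =>
    hΩ.map_mem β hβ (starRingAut : ℂ ≃+* ℂ)
  have h1 : logSpan ν Ω ≤ Submodule.span ℝ
      ((P.image (oddLog ν) : Finset ((ℂ ≃+* ℂ) → ℝ)) : Set ((ℂ ≃+* ℂ) → ℝ)) := by
    unfold logSpan
    rw [Submodule.span_le]
    rintro _ ⟨β, hβ, rfl⟩
    have hβ' : β ∈ Ω := hβ
    rcases lt_trichotomy 0 β.im with h | h | h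
    · refine Submodule.subset_span ?_
      rw [Finset.coe_image]
      exact ⟨β, Finset.mem_coe.2 (Finset.mem_filter.2 ⟨hβ', h⟩), rfl⟩
    · have h2 : starRingEnd ℂ β = β := by
        apply Complex.ext
        · simp
        · simp [← h]
      have h3 := oddLog_conj (ν := ν) hΩ hβ'
      rw [h2] at h3
      have h4 : oddLog ν β = 0 := by
        funext σ
        have h5 := congrFun h3 σ
        change oddLog ν β σ = - oddLog ν β σ at h5
        change oddLog ν β σ = 0
        linarith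
      change oddLog ν β ∈ _
      rw [h4]
      exact Submodule.zero_mem _
    · have h3 := oddLog_conj (ν := ν) hΩ hβ'
      have h4 : oddLog ν β = - oddLog ν (starRingEnd ℂ β) := by rw [h3, neg_neg]
      change oddLog ν β ∈ _
      rw [h4]
      refine Submodule.neg_mem _ (Submodule.subset_span ?_)
      rw [Finset.coe_image]
      refine ⟨_, Finset.mem_coe.2 (Finset.mem_filter.2 ⟨hconj β hβ', ?_⟩), rfl⟩
      rw [Complex.conj_im]
      linarith
  have h2 : finrank ℝ (logSpan ν Ω) ≤ P.card := by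
    refine (Submodule.finrank_mono h1).trans ((finrank_span_finset_le_card _).trans ?_)
    exact Finset.card_image_le
  have h3 : P.card + P.card ≤ Ω.card := by
    let N : Finset ℂ := Ω.filter fun β => β.im < 0
    have h4 : P.card ≤ N.card := by
      refine Finset.card_le_card_of_injOn (starRingEnd ℂ) (fun β hβ => ?_)
        (fun a _ b _ h => (starRingEnd ℂ).injective h)
      obtain ⟨h5, h6⟩ := Finset.mem_filter.1 (Finset.mem_coe.1 hβ)
      refine Finset.mem_coe.2 (Finset.mem_filter.2 ⟨hconj β h5, ?_⟩)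
      rw [Complex.conj_im]
      linarith
    have h5 : Disjoint P N := by
      rw [Finset.disjoint_filter]
      intro β _ h6 h7
      exact lt_asymm h6 h7
    have h6 : P ∪ N ⊆ Ω := Finset.union_subset (Finset.filter_subset _ _)
      (Finset.filter_subset _ _)
    have h7 := Finset.card_le_card h6
    rw [Finset.card_union_of_disjoint h5] at h7
    omega
  omega

end span

end Pool.Agent.V1168.EF
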