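import Mathlib
import Pool.Agent.V1168.EF.Core

/-!
# There are no relations outside of the exceptional factors
-/

set_option autoImplicit false
set_option linter.unusedSectionVars false
set_option linter.unusedVariables false

namespace Pool.Agent.V1168.EF

open NumberField Finset Module Polynomial Pool.Agent.Y1.CT Pool.Agent.TH170.MF Pool.Agent.TH170
  Pool.Agent.V1168.EV Pool.Agent.W484.HS

variable {p : ℕ} [Fact p.Prime] {ν : PadicAlgCl p ≃+* ℂ} {a : ℕ} {I : Type} [Fintype I]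
  {K : I → Type} [∀ i, Field (K i)] [∀ i, NumberField (K i)] [∀ i, IsCMField (K i)]
  {π : ∀ i, K i} {Ω : Finset ℂ}

theorem generated_mem (hΩ : IsStable Ω) {ρ : ℂ} (h : Generated p Ω ρ) :
    oddLog ν ρ ∈ logSpan ν Ω := by
  classical
  obtain ⟨h0, m, n, k, hm, hρ⟩ := h
  have hp0 : (p : ℂ) ≠ 0 := Nat.cast_ne_zero.2 (Fact.out : p.Prime).ne_zero
  have hm' : (m : ℝ) ≠ 0 := Nat.cast_ne_zero.2 hm.ne'
  have h1 : ∀ σ : ℂ ≃+* ℂ, m * lg ν (σ ρ) = ∑ β ∈ Ω, n β * lg ν (σ β) - k := by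
    intro σ
    rw [← lg_pow, ← map_pow, hρ, map_mul, map_prod, map_zpow₀, map_natCast,
      lg_mul (Finset.prod_ne_zero_iff.2 fun β hβ => by
        rw [map_zpow₀]
        exact zpow_ne_zero _ ((_root_.map_ne_zero σ).2 (hΩ.ne_zero β hβ)))
      (zpow_ne_zero _ hp0), lg_zpow, lg_p,
      lg_prod _ _ fun β hβ => by
        rw [map_zpow₀]
        exact zpow_ne_zero _ ((_root_.map_ne_zero σ).2 (hΩ.ne_zero β hβ))]
    simp only [map_zpow₀, lg_zpow]
    ring
  have h2 : oddLog ν ρ = ∑ β ∈ Ω, ((n β : ℝ) / m) • oddLog ν β := by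
    funext σ
    rw [Finset.sum_apply]
    change lg ν (σ ρ) - lg ν ((σ.trans starRingAut) ρ) = ∑ β ∈ Ω, ((n β : ℝ) / m) *
      (lg ν (σ β) - lg ν ((σ.trans starRingAut) β))
    apply mul_left_cancel₀ hm'
    rw [mul_sub, h1, h1, Finset.mul_sum]
    rw [sub_sub_sub_cancel_right, ← Finset.sum_sub_distrib]
    refine Finset.sum_congr rfl fun β _ => ?_
    field_simp
  rw [h2]
  exact Submodule.sum_mem _ fun β hβ => Submodule.smul_mem _ _ (oddLog_mem hβ)

/-- The counting function of a relation is even. -/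
theorem even_of (hsep : PairFlips K)
    (hw : ∀ i, π i * IsCMField.complexConj (K i) (π i) = (p : K i) ^ a)
    (hout : ∀ i, ∃ φ : K i →+* ℂ, orb (slopes ν a π) ⟨i, φ⟩ ∉ logSpan ν Ω)
    (hΩ : IsStable Ω) {ρ : ℂ} (hρ : oddLog ν ρ ∈ logSpan ν Ω) (cnt : Emb K → ℝ) (c₁ c₂ : ℝ)
    (h : ∀ σ : ℂ ≃+* ℂ, ∑ y, cnt y * slopes ν a π (act σ y) = c₁ * lg ν (σ ρ) + c₂)
    (y : Emb K) : cnt y = cnt (EV.bar y) := by
  by_contra hcon
  obtain ⟨i, φ⟩ := y
  obtain ⟨ψ, hψ⟩ := hout i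
  have hx := odd_slopes (ν := ν) hw
  let m : Emb K → ℝ := fun y => cnt y - cnt (EV.bar y)
  have hm : Odd' m := by
    intro y
    change cnt (EV.bar y) - cnt (EV.bar (EV.bar y)) = -(cnt y - cnt (EV.bar y))
    rw [bar_bar]
    ring
  have h1 : ∀ σ : ℂ ≃+* ℂ, ∑ y, m y * slopes ν a π (act σ y) =
      (2 * c₁) * lg ν (σ ρ) + 2 * c₂ := by
    intro σ
    change ∑ y, (cnt y - cnt (EV.bar y)) * slopes ν a π (act σ y) = _
    rw [sum_odd hx, h]
    ring
  have h2 := odd_part (g := fun σ => lg ν (σ ρ)) hx h1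
  refine hψ (orb_mem_all hsep (translates_logSpan hΩ) hx hm ?_ (i := i) (φ := φ)
    (sub_ne_zero.2 hcon) ψ)
  have h3 : (fun σ : ℂ ≃+* ℂ => ∑ y, m y * slopes ν a π (act σ y)) = c₁ • oddLog ν ρ := by
    funext σ
    rw [h2 σ]
    change 2 * c₁ * ((lg ν (σ ρ) - lg ν ((σ.trans starRingAut) ρ)) / 2) =
      c₁ * (lg ν (σ ρ) - lg ν ((σ.trans starRingAut) ρ))
    ring
  rw [h3]
  exact Submodule.smul_mem _ _ hρ

theorem exactPair_of (hsep : PairFlips K)
    (hw : ∀ i, π i * IsCMField.complexConj (K i) (π i) = (p : K i) ^ a)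
    (hout : ∀ i, ∃ φ : K i →+* ℂ, orb (slopes ν a π) ⟨i, φ⟩ ∉ logSpan ν Ω)
    (hΩ : IsStable Ω)
    (f : I → ℤ[X]) (hf : ∀ i, IsPolyOf (π i) (f i)) (s : ℕ) (hs : 0 < s) (ρ : ℂ)
    (hρ0 : ρ ≠ 0) (hρ : oddLog ν ρ ∈ logSpan ν Ω) :
    ExactPairK (fun z : Root f => (z : ℂ) ^ s) (((p ^ a : ℕ) : ℂ) ^ s) ρ := by
  classical
  intro n c N hN hn ys hlen hrel hpw
  have hπ0 := weil_ne hw
  let x : Emb K → ℝ := slopes ν a π
  have hz : ∀ z : Root f, ∃ y : Emb K, y.2 (π y.1) = z := by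
    rintro ⟨z, i, hi⟩
    obtain ⟨φ, hφ⟩ := (hf i).2 z hi
    exact ⟨⟨i, φ⟩, hφ⟩
  choose idx hidx using hz
  have hz0 : ∀ z : Root f, (z : ℂ) ≠ 0 := by
    intro z
    rw [← hidx z]
    exact (_root_.map_ne_zero _).2 (hπ0 _)
  have hdev : ∀ (σ : ℂ ≃+* ℂ) (z : Root f), -(2 * lg ν (σ z)) = a + x (act σ (idx z)) := by
    intro σ z
    have h1 := two_lg (ν := ν) (a := a) (π := π) (idx z) σ
    rw [hidx z] at h1
    exact h1
  have hN0 : (N : ℝ) ≠ 0 := Nat.cast_ne_zero.2 hN.ne'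
  have hlog : ∀ σ : ℂ ≃+* ℂ, s * (ys.map fun z : Root f => lg ν (σ z)).sum + lg ν (σ ρ) =
      -(c * (s * a)) := by
    intro σ
    have h1 := congrArg (fun x => lg ν (σ x)) hrel
    simp only [map_pow, map_mul, map_zpow₀, lg_pow, lg_zpow] at h1
    have h2 := mul_left_cancel₀ hN0 h1
    have h3 : σ ((ys.map fun z : Root f => (z : ℂ) ^ s).prod) =
        (ys.map fun z : Root f => (σ z) ^ s).prod := by
      rw [_root_.map_list_prod, List.map_map]
      congr 1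
      refine List.map_congr_left fun z _ => ?_
      rw [Function.comp_apply, map_pow]
    rw [h3] at h2
    obtain ⟨h4, h5⟩ := lg_list (ν := ν) (fun z : Root f => (σ (z : ℂ)) ^ s) ys
      (fun z _ => pow_ne_zero _ ((_root_.map_ne_zero σ).2 (hz0 z)))
    rw [lg_mul h4 ((_root_.map_ne_zero σ).2 hρ0), h5] at h2
    have h6 : (ys.map fun z : Root f => lg ν ((σ (z : ℂ)) ^ s)).sum =
        s * (ys.map fun z : Root f => lg ν (σ z)).sum := by
      rw [← List.sum_map_mul_left]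
      congr 1
      refine List.map_congr_left fun z _ => ?_
      rw [lg_pow]
    rw [h6] at h2
    rw [h2, map_natCast]
    push_cast
    rw [lg_pow, lg_p]
    ring
  have hsum : ∀ σ : ℂ ≃+* ℂ, (ys.map fun z : Root f => x (act σ (idx z))).sum =
      2 * (c * a + lg ν (σ ρ) / s) - a * n := by
    intro σ
    have h1 : (ys.map fun z : Root f => x (act σ (idx z))).sum =
        -(2 * (ys.map fun z : Root f => lg ν (σ z)).sum) - a * n := by
      have h2 : ∀ l : List (Root f), (l.map fun z : Root f => x (act σ (idx z))).sum =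
          -(2 * (l.map fun z : Root f => lg ν (σ z)).sum) - a * l.length := by
        intro l
        induction l with
        | nil => simp
        | cons z l ih =>
          rw [List.map_cons, List.sum_cons, ih, List.map_cons, List.sum_cons, List.length_cons]
          have h3 := hdev σ z
          push_cast
          linarith
      rw [h2, hlen]
    have hs' : (s : ℝ) ≠ 0 := Nat.cast_ne_zero.2 hs.ne'
    have h2 : (ys.map fun z : Root f => lg ν (σ z)).sum =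
        -(c * a) - lg ν (σ ρ) / s := by
      apply mul_left_cancel₀ hs'
      rw [mul_sub, mul_div_cancel₀ _ hs']
      have := hlog σ
      linarith
    rw [h1, h2]
    ring
  let cnt : Emb K → ℝ := fun y => (ys.map fun z => if idx z = y then (1 : ℝ) else 0).sum
  have hcnt : ∀ y, cnt y = cnt (EV.bar y) := by
    refine even_of hsep hw hout hΩ hρ cnt (2 / s) (2 * (c * a) - a * n) fun σ => ?_
    have h4 := sum_list idx (fun y => x (act σ y)) ys
    change ∑ y, cnt y * x (act σ y) = _ at h4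
    change ∑ y, cnt y * x (act σ y) = _
    rw [h4, hsum]
    ring
  obtain ⟨z₀, hz₀⟩ := List.exists_mem_of_length_pos (l := ys) (by omega)
  have h1 : 0 < cnt (idx z₀) := (count_pos idx _ ys).2 ⟨z₀, hz₀, rfl⟩
  rw [hcnt] at h1
  obtain ⟨z₁, hz₁, h2⟩ := (count_pos idx _ ys).1 h1
  have hne : z₀ ≠ z₁ := by
    rintro rfl
    exact bar_ne _ h2.symm
  have hsymm : Std.Symm (fun y y' : Root f => (y : ℂ) ^ s * (y' : ℂ) ^ s ≠
      ((p ^ a : ℕ) : ℂ) ^ s) := ⟨by
    intro x y h h'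
    exact h (by rw [mul_comm]; exact h')⟩
  refine hpw.forall hz₀ hz₁ hne ?_
  have h3 : (z₁ : ℂ) = ComplexEmbedding.conjugate (idx z₀).2 (π (idx z₀).1) := by
    rw [← hidx z₁, h2]
    rfl
  change (z₀ : ℂ) ^ s * (z₁ : ℂ) ^ s = _
  rw [h3, ← hidx z₀, ← mul_pow, lg_weil hw]
  push_cast
  rfl

theorem generated_one (p : ℕ) (Ω : Finset ℂ) : Generated p Ω 1 :=
  ⟨one_ne_zero, 1, fun _ => 0, 0, one_pos, by simp⟩

theorem not_generated_zero (p : ℕ) (Ω : Finset ℂ) : ¬ Generated p Ω 0 := fun h => h.1 rfl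

/-- The function given by an embedding of one field. -/
noncomputable def orbOf (ν : PadicAlgCl p ≃+* ℂ) (a : ℕ) {F : Type} [Field F] (x : F)
    (φ : F →+* ℂ) : (ℂ ≃+* ℂ) → ℝ := fun σ => slopeVector ν a x ((σ : ℂ →+* ℂ).comp φ)

section family

variable {I : Type} {K : I → Type} [∀ i, Field (K i)] [∀ i, NumberField (K i)]
  [∀ i, IsCMField (K i)] {π : ∀ i, K i}

theorem pairFlips_sub (hsep : PairFlips K) (J : Finset I) :
    PairFlips (fun i : {i // i ∈ J} => K i.1) := by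
  rintro ⟨⟨i, hi⟩, φ⟩ ⟨⟨k, hk⟩, ψ⟩ h1 h2
  refine hsep ⟨i, φ⟩ ⟨k, ψ⟩ (fun h => h1 ?_) (fun h => h2 ?_)
  · obtain ⟨h3, h4⟩ := Sigma.mk.inj h
    have h3' : k = i := h3
    subst h3'
    rw [eq_of_heq h4]
  · obtain ⟨h3, h4⟩ := Sigma.mk.inj h
    have h3' : k = i := h3
    subst h3'
    rw [eq_of_heq h4]

theorem sum_sub_le (hsep : PairFlips K)
    (hw : ∀ i, π i * IsCMField.complexConj (K i) (π i) = (p : K i) ^ a)
    (hne : ∀ i, ∃ φ, slopeVector ν a (π i) φ ≠ 0) (hΩ : IsStable Ω) (J : Finset I)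
    (hJ : ∀ i ∈ J, ∀ φ : K i →+* ℂ, orbOf ν a (π i) φ ∈ logSpan ν Ω) :
    ∑ i ∈ J, finrank ℚ (K i) ≤ Ω.card := by
  classical
  have h1 := sum_le (K := fun i : {i // i ∈ J} => K i.1) (pairFlips_sub hsep J)
    (F := logSpan ν Ω) (x := slopes ν a (fun i : {i // i ∈ J} => π i.1))
    (good_slopes (fun i => hw i.1) (fun i => hne i.1)) Finset.univ
    (fun i _ φ => hJ i.1 i.2 φ)
  rw [Finset.sum_coe_sort J (fun i => finrank ℚ (K i))] at h1
  exact h1.trans (finrank_logSpan hΩ)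

/-- **The exceptional factors of an arbitrary family.** -/
theorem exists_exceptional (ν : PadicAlgCl p ≃+* ℂ) (hsep : PairFlips K)
    (hw : ∀ i, π i * IsCMField.complexConj (K i) (π i) = (p : K i) ^ a)
    (hne : ∀ i, ∃ φ, slopeVector ν a (π i) φ ≠ 0) (hΩ : IsStable Ω) :
    ∃ S : Finset I, ∑ i ∈ S, finrank ℚ (K i) ≤ Ω.card ∧
      ∀ i, i ∉ S → ∃ φ : K i →+* ℂ, orbOf ν a (π i) φ ∉ logSpan ν Ω := by
  classical
  let E : Set I := {i | ∀ φ : K i →+* ℂ, orbOf ν a (π i) φ ∈ logSpan ν Ω}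
  have hfin : E.Finite := by
    by_contra hinf
    obtain ⟨J, hJ1, hJ2⟩ := Set.Infinite.exists_subset_card_eq hinf (Ω.card + 1)
    have h1 := sum_sub_le hsep hw hne hΩ J (fun i hi => hJ1 hi)
    have h2 : ∑ i ∈ J, 1 ≤ ∑ i ∈ J, finrank ℚ (K i) :=
      Finset.sum_le_sum fun i _ => finrank_pos
    rw [Finset.sum_const, smul_eq_mul, mul_one, hJ2] at h2
    omega
  refine ⟨hfin.toFinset, sum_sub_le hsep hw hne hΩ _ (fun i hi => (hfin.mem_toFinset.1 hi)),
    fun i hi => ?_⟩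
  by_contra hcon
  push Not at hcon
  exact hi (hfin.mem_toFinset.2 hcon)

/-- **The general theorem.** -/
theorem exists_factors (ν : PadicAlgCl p ≃+* ℂ) (hsep : PairFlips K) (ha : 0 < a)
    (hw : ∀ i, π i * IsCMField.complexConj (K i) (π i) = (p : K i) ^ a)
    (hne : ∀ i, ∃ φ, slopeVector ν a (π i) φ ≠ 0) (hΩ : IsStable Ω) :
    ∃ S : Finset I, ∑ i ∈ S, finrank ℚ (K i) ≤ Ω.card ∧
      ∀ P : ∀ J : Type, ℕ → (J → ℤ[X]) → Prop,
        (∀ (J : Type) (q : ℕ) (f : J → ℤ[X]), 1 < q → NoRel f q (Generated p Ω) → P J q f) →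
          ForAllPolys π (p ^ a) S P := by
  classical
  obtain ⟨S, hS1, hS2⟩ := exists_exceptional ν hsep hw hne hΩ
  refine ⟨S, hS1, fun P hP J hJ f hf => ?_⟩
  refine hP _ (p ^ a) f (Nat.one_lt_pow ha.ne' (Fact.out : p.Prime).one_lt)
    ⟨fun i => (hf i).1, generated_one p Ω, fun s hs ρ hρ => ?_⟩
  exact exactPair_of (ν := ν) (pairFlips_sub hsep J) (fun i => hw i.1)
    (fun i => hS2 i.1 (Finset.disjoint_left.1 hJ i.2)) hΩ
    f hf s hs ρ hρ.1 (generated_mem hΩ hρ)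

end family

end Pool.Agent.V1168.EF
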