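import Mathlib
import Pool.Agent.V1168.EF.Props
import Pool.Agent.V1168.EF.Rel
import Pool.Agent.V1168.UN.Diag
import Pool.Agent.V1168.BB.Count

/-!
# The Kunneth formula for theories whose Frobenius eigenvalues come from a finite set
-/

set_option autoImplicit false
set_option linter.unusedSectionVars false
set_option linter.unusedVariables false

namespace Pool.Agent.V1168.EF

open Module Polynomial Pool.Agent.Y156.L Pool.Agent.W484.HS Pool.Agent.Y1.CT Pool.Agent.V1168.UN
  Pool.Agent.V1168.BB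

theorem list_unrel {I : Type} {p : ℕ} {Ω : Finset ℂ} {q : ℕ} (hq : 1 < q)
    {f : I → ℤ[X]} (hR : NoRel f q (Generated p Ω)) {s : ℕ} (hs : 0 < s) {ρ : ℂ}
    (hρ : Generated p Ω ρ) (L : List (Rt f)) (c : ℤ)
    (h : (L.map fun z : Rt f => (z : ℂ) ^ s).prod * ρ = ((q : ℂ) ^ s) ^ c) :
    ∃ k : ℕ, L.length = 2 * k ∧ (L.map fun z : Rt f => (z : ℂ) ^ s).prod = ((q : ℂ) ^ s) ^ k := by
  have hQ0 : (q : ℂ) ^ s ≠ 0 := pow_ne_zero _ (by exact_mod_cast (by omega : q ≠ 0))
  obtain ⟨k, h1, h2, -⟩ := Pool.Agent.W484.CH.list_graded (AlgHom.id ℂ ℂ)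
    (fun z : Rt f => (z : ℂ) ^ s) ((q : ℂ) ^ s) ρ hQ0 (hR.pair s hs ρ hρ)
    (fun _ => (⊤ : Submodule ℂ ℂ)) trivial (fun _ _ _ _ _ => trivial) {0}
    (by
      intro a ha b hb
      rw [Set.mem_singleton_iff.1 ha, Set.mem_singleton_iff.1 hb]
      simp)
    (fun _ _ _ _ _ _ _ _ _ => trivial) L.length c 1 one_pos (L.map fun z => ((0 : ℂ), z))
    (by rw [List.length_map])
    (by
      intro e he
      obtain ⟨z, -, rfl⟩ := List.mem_map.1 he
      exact ⟨rfl, by simp⟩)
    (by
      rw [List.map_map, pow_one, pow_one]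
      exact h)
  refine ⟨k, h1, ?_⟩
  rw [List.map_map] at h2
  exact h2

section

variable {Λ : Type} [Field Λ] [CharZero Λ] {A : AbelianData Λ} {q s : ℕ} {I : Type}
  {f : I → ℤ[X]} {p : ℕ} {Ω : Finset ℂ}

/-- **The Kunneth formula, for all theories unrelated to the fields.** -/
theorem exists_classes (hq : 1 < q) (hR : NoRel f q (Generated p Ω)) (hA : IsAbelian A q s f) :
    ∃ (J : Type) (_ : Fintype J) (c : J → ℕ) (D E' : J → A.CH), IsFamily A c D ∧
      Pool.Agent.Y156.L.IsDual A c D E' ∧ q ^ s ≠ 0 ∧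
      ∀ T : RelData A, IsRel (q ^ s) T → FrobeniusGenerated p Ω T →
        Expands (q ^ s) T D E' ∧ Expands (q ^ s) T E' D ∧
        (PreservesDegrees T → ExpandsGen (q ^ s) T D E' ∧ ExpandsGen (q ^ s) T E' D) := by
  obtain ⟨J, hJ, c, D, E', hF, hdual, hQ, hmain⟩ := exists_core hq hR hA
  refine ⟨J, hJ, c, D, E', hF, hdual, hQ, fun T hT hK => ?_⟩
  have hinv : ∀ (i j : ℤ) (m : T.M), T.InvM (q ^ s) i j m →
      m = ∑ t, T.times (D t) (T.pair (E' t) m) ∧ m = ∑ t, T.times (E' t) (T.pair (D t) m) := by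
    intro i j m hm
    obtain ⟨χ, hχ, hrank, hkill⟩ := hK i j
    have hkill' : ∀ m ∈ invSub T (q ^ s) i j, aeval T.frobM χ m = 0 := fun m hm => hkill m hm.1
    have hV1 : ∀ m ∈ invSub T (q ^ s) i j, T.frobM m ∈ invSub T (q ^ s) i j :=
      fun m hm => inv_frob hT hm
    have hV2 : ∀ m ∈ invSub T (q ^ s) i j, T.act A.frob (T.frobM m) =
        ((q ^ s : ℕ) : ℚ) ^ j • m := fun m hm => hm.2
    have hV : ∀ m ∈ invSub T (q ^ s) i j, T.act A.frob m ∈ invSub T (q ^ s) i j := fun m hm =>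
      stable_of _ T.frobM _ _ hV1 hV2 χ
        (coeff_zero_ne' (not_generated_zero p Ω) hrank) hkill' hm
    exact hmain T hT j χ hχ hrank (invSub T (q ^ s) i j) 1 hV (fun m hm => by
      rw [pow_one]
      exact aeval_rev_op _ T.frobM _ _ hV1 hV2 χ hkill' hm) m hm
  refine ⟨fun i j m hm => (hinv i j m hm).1, fun i j m hm => (hinv i j m hm).2, fun hP => ?_⟩
  have hgen : ∀ (i j : ℤ) (N : ℕ) (m : T.M), T.DegM i j m →
      (fun x => T.app A.frob (T.FM x) - T.scaleM (((q ^ s : ℕ) : ℚ) ^ j) x)^[N] m = 0 →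
      m = ∑ t, T.times (D t) (T.pair (E' t) m) ∧ m = ∑ t, T.times (E' t) (T.pair (D t) m) := by
    intro i j N m hm hN
    obtain ⟨χ, hχ, hrank, hkill⟩ := hK i j
    have hc := commute_frob hT
    set ν := T.act A.frob * T.frobM - algebraMap ℚ _ (((q ^ s : ℕ) : ℚ) ^ j) with hν
    let V : Submodule ℚ T.M := T.grM i j ⊓ LinearMap.ker (ν ^ N)
    have hcν : Commute T.frobM ν :=
      ((hc.symm).mul_right (Commute.refl _)).sub_right (Algebra.commute_algebraMap_right _ _)
    have hVφ : ∀ y ∈ V, T.frobM y ∈ V := by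
      intro y hy
      refine ⟨hT.frob_mem hy.1, ?_⟩
      have h1 : (ν ^ N) y = 0 := hy.2
      change (ν ^ N) (T.frobM y) = 0
      rw [← Module.End.mul_apply, (hcν.symm.pow_left N).eq, Module.End.mul_apply, h1, map_zero]
    have hVν : ∀ y ∈ V, T.act A.frob (T.frobM y) ∈ V := by
      intro y hy
      refine ⟨hP.degM hy.1, ?_⟩
      have h1 : (ν ^ N) y = 0 := hy.2
      change (ν ^ N) (T.act A.frob (T.frobM y)) = 0
      have h2 : Commute (T.act A.frob * T.frobM) ν :=
        (Commute.refl _).sub_right (Algebra.commute_algebraMap_right _ _)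
      rw [← Module.End.mul_apply (T.act A.frob), ← Module.End.mul_apply,
        (h2.symm.pow_left N).eq, Module.End.mul_apply, h1, map_zero]
    have hχ0 : χ.coeff 0 ≠ 0 := coeff_zero_ne' (not_generated_zero p Ω) hrank
    have hVF : ∀ y ∈ V, T.act A.frob y ∈ V := by
      intro y hy
      have haV : ∀ S : ℚ[X], aeval T.frobM S y ∈ V := by
        intro S
        have hpow : ∀ l : ℕ, (T.frobM ^ l) y ∈ V := by
          intro l
          induction l with
          | zero => simpa using hy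
          | succ l ih =>
            rw [pow_succ', Module.End.mul_apply]
            exact hVφ _ ih
        rw [aeval_eq_sum_range, LinearMap.sum_apply]
        exact Submodule.sum_mem _ fun l _ => Submodule.smul_mem _ _ (hpow l)
      have h1 : y = T.frobM ((-(χ.coeff 0)⁻¹) • aeval T.frobM χ.divX y) := by
        have h2 := hkill y hy.1
        rw [← divX_mul_X_add χ, mul_comm χ.divX, map_add, aeval_C, map_mul, aeval_X,
          LinearMap.add_apply, Module.End.mul_apply, Module.algebraMap_end_apply] at h2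
        have h3 : T.frobM (aeval T.frobM χ.divX y) = -(χ.coeff 0 • y) :=
          eq_neg_of_add_eq_zero_left h2
        rw [map_smul, h3, smul_neg, neg_smul, neg_neg, smul_smul, inv_mul_cancel₀ hχ0, one_smul]
      rw [h1]
      exact hVν _ (Submodule.smul_mem _ _ (haV _))
    refine hmain T hT j χ hχ hrank V N hVF (fun y hy => ?_) m ⟨hm, ?_⟩
    · exact rev_pow_gen (T.act A.frob) T.frobM hc _ χ V hVF (fun y hy => hkill y hy.1) N
        (fun y hy => hy.2) hy
    · rw [iterate_eq] at hN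
      exact hN
  exact ⟨fun i j N m hm hN => (hgen i j N m hm hN).1,
    fun i j N m hm hN => (hgen i j N m hm hN).2⟩

end

section

variable {Λ : Type} [Field Λ] [CharZero Λ] {A : AbelianData Λ} {T : RelData A} {Q : ℕ}

theorem generated_diag {p : ℕ} {Ω : Finset ℂ} (h : DiagGenerated p Ω T) :
    FrobeniusGenerated p Ω (diag T) := by
  intro i j
  by_cases hij : i = 2 * j
  · subst hij
    obtain ⟨χ, h1, h2, h3⟩ := h j
    exact ⟨χ, h1, h2, fun m hm => h3 m ((degM_diag (T := T) j m).1 hm)⟩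
  · refine ⟨1, one_ne_zero, fun ρ hρ => ?_, fun m hm => ?_⟩
    · rw [map_one] at hρ
      exact absurd hρ one_ne_zero
    · rcases degM_diag_cases hm with ⟨h1, -⟩ | h1
      · exact absurd h1 hij
      · change (aeval T.frobM (1 : ℚ[X])) m = 0
        rw [h1, map_zero]

end

end Pool.Agent.V1168.EF
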