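import Mathlib
import Pool.Agent.V1168.EF.SplitDefs
import Pool.Agent.V1168.EF.Rel
import Pool.Agent.V1168.EV.SplitMain

/-!
# The splitting of the Tate classes outside of the exceptional factors
-/

set_option autoImplicit false
set_option linter.unusedSectionVars false
set_option linter.unusedVariables false

namespace Pool.Agent.V1168.EF

open NumberField Module TensorProduct IntermediateField
open Pool.Agent.H204R3.CM Pool.Agent.H204R3.SP Pool.Agent.H204R3.GP Pool.Agent.Y137.MV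
  Pool.Agent.Y137.SL Pool.Agent.Y1.CT Pool.Agent.V1168.EV

/-- The condition on the eigenvalues. -/
theorem forces_of {p : ℕ} [Fact p.Prime] {ν : PadicAlgCl p ≃+* ℂ} {a : ℕ} {I : Type} [Fintype I]
    {K : I → Type} [∀ i, Field (K i)] [∀ i, NumberField (K i)] [∀ i, IsCMField (K i)]
    {π : ∀ i, K i} {Ω : Finset ℂ} (hsep : PairFlips K)
    (hw : ∀ i, π i * IsCMField.complexConj (K i) (π i) = (p : K i) ^ a)
    (hout : ∀ i, ∃ φ : K i →+* ℂ, orb (slopes ν a π) ⟨i, φ⟩ ∉ logSpan ν Ω) (hΩ : IsStable Ω)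
    {L : Type*} [Field L] [NumberField L] [IsGalois ℚ L] (j : L →+* ℂ) (β : L) (i : I)
    (hf : Generated p Ω (j β)) : Forces π β i := by
  classical
  intro T N F hN hβN φ
  have hπ0 := weil_ne hw
  let J : (Σ i, (K i →+* L)) → Emb K := fun x => ⟨x.1, j.comp x.2⟩
  have hJ : Function.Injective J := by
    rintro ⟨a, φ⟩ ⟨b, ψ⟩ h
    simp only [J, Sigma.mk.injEq] at h
    obtain ⟨rfl, h⟩ := h
    rw [H194R3.CM.comp_injective j (eq_of_heq h)]
  let cnt : Emb K → ℝ := fun x => ((Finset.univ.filter (fun l => J (F l) = x)).card : ℝ)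
  have hN' : (N : ℝ) ≠ 0 := Nat.cast_ne_zero.2 hN.ne'
  have h1 : ∀ σ : ℂ ≃+* ℂ, Y1.CT.lg ν (σ (j β)) =
      ∑ l, Y1.CT.lg ν (σ ((J (F l)).2 (π (J (F l)).1))) := by
    intro σ
    have h2 := congrArg (fun x => Y1.CT.lg ν (σ (j x))) hβN
    change Y1.CT.lg ν (σ (j (β ^ N))) = Y1.CT.lg ν (σ (j (∏ l, ((F l).2 (π (F l).1)) ^ N))) at h2
    simp only [map_pow, map_prod] at h2
    rw [lg_pow, lg_prod _ _ (fun l _ => pow_ne_zero _ ((_root_.map_ne_zero σ).2
      ((_root_.map_ne_zero j).2 ((_root_.map_ne_zero _).2 (hπ0 _)))))] at h2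
    simp only [lg_pow] at h2
    rw [← Finset.mul_sum] at h2
    exact mul_left_cancel₀ hN' h2
  have h2 : ∀ σ : ℂ ≃+* ℂ, ∑ y, cnt y * slopes ν a π (act σ y) =
      (-2) * Y1.CT.lg ν (σ (j β)) + -(a * T) := by
    intro σ
    have h3 : ∀ y : Emb K, cnt y * slopes ν a π (act σ y) =
        ∑ l ∈ Finset.univ.filter (fun l => J (F l) = y), slopes ν a π (act σ (J (F l))) := by
      intro y
      rw [Finset.sum_congr rfl (g := fun _ => slopes ν a π (act σ y)) (fun l hl => by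
        rw [(Finset.mem_filter.1 hl).2]), Finset.sum_const, nsmul_eq_mul]
    rw [Finset.sum_congr rfl fun y _ => h3 y,
      Finset.sum_fiberwise (s := Finset.univ) (g := fun l => J (F l))
        (f := fun l => slopes ν a π (act σ (J (F l)))), h1]
    have h4 : ∀ l, slopes ν a π (act σ (J (F l))) =
        -2 * Y1.CT.lg ν (σ ((J (F l)).2 (π (J (F l)).1))) - a := by
      intro l
      have h5 := two_lg (ν := ν) (a := a) (π := π) (J (F l)) σ
      linarith
    rw [Finset.sum_congr rfl fun l _ => h4 l, Finset.sum_sub_distrib, ← Finset.mul_sum,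
      Finset.sum_const, Finset.card_univ, Fintype.card_fin, nsmul_eq_mul]
    ring
  have hcnt : ∀ y, cnt y = cnt (EV.bar y) :=
    even_of hsep hw hout hΩ (generated_mem hΩ hf) cnt _ _ h2
  have h9 := hcnt ⟨i, j.comp φ⟩
  have h4 : (Finset.univ.filter (fun l => F l = ⟨i, φ⟩)).card =
      (Finset.univ.filter (fun l => J (F l) = ⟨i, j.comp φ⟩)).card := by
    congr 1
    ext l
    simp only [Finset.mem_filter, Finset.mem_univ, true_and]
    exact ⟨fun h => by rw [h], fun h => hJ h⟩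
  have h5 : (Finset.univ.filter (fun l => F l = Pool.Agent.H204R3.GP.bar ⟨i, φ⟩)).card =
      (Finset.univ.filter (fun l => J (F l) =
        ⟨i, ComplexEmbedding.conjugate (j.comp φ)⟩)).card := by
    congr 1
    ext l
    simp only [Finset.mem_filter, Finset.mem_univ, true_and]
    have h6 : J (Pool.Agent.H204R3.GP.bar ⟨i, φ⟩) = ⟨i, ComplexEmbedding.conjugate (j.comp φ)⟩ := by
      simp only [J, Pool.Agent.H204R3.GP.bar]
      rw [comp_cbar]
    rw [← h6]
    exact ⟨fun h => by rw [h], fun h => hJ h⟩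
  rw [h4, h5]
  have h10 : ((Finset.univ.filter (fun l => J (F l) = ⟨i, j.comp φ⟩)).card : ℝ) =
      ((Finset.univ.filter (fun l => J (F l) =
        ⟨i, ComplexEmbedding.conjugate (j.comp φ)⟩)).card : ℝ) := h9
  exact_mod_cast h10

/-- **The theorem on one Frobenius element.** -/
theorem exists_factors_split {p : ℕ} [Fact p.Prime] (ν : PadicAlgCl p ≃+* ℂ) {I : Type}
    {K : I → Type} [∀ i, Field (K i)] [∀ i, NumberField (K i)]
    [∀ i, IsCMField (K i)] (hsep : PairFlips K) {a : ℕ} {π : ∀ i, K i} (hgen : ∀ i, ℚ⟮π i⟯ = ⊤)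
    (hw : ∀ i, π i * IsCMField.complexConj (K i) (π i) = (p : K i) ^ a)
    (hne : ∀ i, ∃ φ, slopeVector ν a (π i) φ ≠ 0) {Ω : Finset ℂ} (hΩ : IsStable Ω) :
    ∃ S : Finset I, ∑ i ∈ S, finrank ℚ (K i) ≤ Ω.card ∧ ∀ J : Finset I, Disjoint J S →
      TateClassesSplit (p := p) Ω a (fun i : {i // i ∈ J} => K i.1) (fun i => π i.1) := by
  classical
  obtain ⟨S, hS1, hS2⟩ := exists_exceptional ν hsep hw hne hΩ
  refine ⟨S, hS1, fun J hJ => ?_⟩
  have hout : ∀ i : {i // i ∈ J}, ∃ φ : K i.1 →+* ℂ,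
      orb (slopes (K := fun i : {i // i ∈ J} => K i.1) ν a (fun i => π i.1)) ⟨i, φ⟩ ∉
        logSpan ν Ω := fun i => hS2 i.1 (Finset.disjoint_left.1 hJ i.2)
  have hsep' := pairFlips_sub hsep J
  intro k _ _ V _ _ _ M _ _ _ Γ _ ρ τ χ γ hp f hf0 hfγ hf
  exact split_of_forces (fun i => hgen i.1) (fun i => hw i.1)
    (angle_of (ν := ν) hsep' (fun i => hw i.1) (fun i => hne i.1)) k V M Γ ρ τ χ γ hp f hf0 hfγ
    fun L _ _ _ j β hβ i => forces_of (ν := ν) hsep' (fun i => hw i.1) hout hΩ j β i (hf _ hβ)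

end Pool.Agent.V1168.EF
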