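import Mathlib
import Pool.Agent.V1168.EF.Split

/-!
# The exceptional factors for finite fields and for number fields together
-/

set_option autoImplicit false

namespace Pool.Agent.V1168.EF

open NumberField Module IntermediateField Polynomial Pool.Agent.Y1.CT Pool.Agent.V1168.EV

/-- **The theorem for finite fields and for one Frobenius element**, with the same exceptional set. -/
theorem exists_factors_both {p : ℕ} [Fact p.Prime] (ν : PadicAlgCl p ≃+* ℂ) {I : Type}
    {K : I → Type} [∀ i, Field (K i)] [∀ i, NumberField (K i)]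
    [∀ i, IsCMField (K i)] (hsep : PairFlips K) {a : ℕ} (ha : 0 < a) {π : ∀ i, K i}
    (hgen : ∀ i, ℚ⟮π i⟯ = ⊤)
    (hw : ∀ i, π i * IsCMField.complexConj (K i) (π i) = (p : K i) ^ a)
    (hne : ∀ i, ∃ φ, slopeVector ν a (π i) φ ≠ 0) {Ω : Finset ℂ} (hΩ : IsStable Ω) :
    ∃ S : Finset I, ∑ i ∈ S, finrank ℚ (K i) ≤ Ω.card ∧
      (∀ P : ∀ J : Type, ℕ → (J → ℤ[X]) → Prop,
        (∀ (J : Type) (q : ℕ) (f : J → ℤ[X]), 1 < q → NoRel f q (Generated p Ω) → P J q f) →
          ForAllPolys π (p ^ a) S P) ∧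
      ∀ J : Finset I, Disjoint J S →
        TateClassesSplit (p := p) Ω a (fun i : {i // i ∈ J} => K i.1) (fun i => π i.1) := by
  classical
  obtain ⟨S, hS1, hS2⟩ := exists_exceptional ν hsep hw hne hΩ
  refine ⟨S, hS1, fun P hP J hJ f hf => ?_, fun J hJ => ?_⟩
  · refine hP _ (p ^ a) f (Nat.one_lt_pow ha.ne' (Fact.out : p.Prime).one_lt)
      ⟨fun i => (hf i).1, generated_one p Ω, fun s hs ρ hρ => ?_⟩
    exact exactPair_of (ν := ν) (pairFlips_sub hsep J) (fun i => hw i.1)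
      (fun i => hS2 i.1 (Finset.disjoint_left.1 hJ i.2)) hΩ
      f hf s hs ρ hρ.1 (generated_mem hΩ hρ)
  · have hout : ∀ i : {i // i ∈ J}, ∃ φ : K i.1 →+* ℂ,
        orb (slopes (K := fun i : {i // i ∈ J} => K i.1) ν a (fun i => π i.1)) ⟨i, φ⟩ ∉
          logSpan ν Ω := fun i => hS2 i.1 (Finset.disjoint_left.1 hJ i.2)
    have hsep' := pairFlips_sub hsep J
    intro k _ _ V _ _ _ M _ _ _ Γ _ ρ τ χ γ hp f hf0 hfγ hf
    exact split_of_forces (fun i => hgen i.1) (fun i => hw i.1)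
      (angle_of (ν := ν) hsep' (fun i => hw i.1) (fun i => hne i.1)) k V M Γ ρ τ χ γ hp f hf0 hfγ
      fun L _ _ _ j β hβ i => forces_of (ν := ν) hsep' (fun i => hw i.1) hout hΩ j β i (hf _ hβ)

end Pool.Agent.V1168.EF
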