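import Mathlib
import Pool.Agent.V1168.EF.MurreDefs

/-!
# Independence of Murre's filtration from the decomposition: definitions
-/

set_option autoImplicit false

namespace Pool.Agent.V1168.EF

open Polynomial Module Pool.Agent.Y156.L Pool.Agent.Y1.CT Pool.Agent.V1168.BB

section

variable {I : Type} (p : ℕ) (Ω : Finset ℂ) (q : ℕ) (f : I → ℤ[X])

/-- `IndependenceTimes p Ω q f`: for every abelian variety `A` as in `IsAbelian` over the field with
`Q = q ^ s` elements there are finitely many products `D t` of `c t` divisor classes on `A`, such that
for every smooth projective variety `Y` over every field `k` which contains the field with `Q`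
elements, with the properties `IsMurreTheory`, such that the absolute Frobenius endomorphism of `Y`
satisfies on each `CH^j(A × Y)` a nonzero rational polynomial with roots generated by `Ω` (`DiagGenerated`): every
element of `CH^n(A × Y)` is in a unique way the sum of the products of the `D t` with elements of
`CH^(n - c t)(Y)`; and for all Chow–Künneth decompositions `πY`, `πY'` of `Y`: the products with the
decomposition of Deninger and Murre of `A` are Chow–Künneth decompositions of `A × Y`; the elements of
`F^ν CH^n(A × Y)` are the sums of the products of the `D t` with elements of `F^ν CH^(n - c t)(Y)`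
(for `πY`); and the groups `F^ν CH^n(A × Y)` for the two product decompositions are equal if and only
if the groups `F^ν CH^(n - k)(Y)` for `πY` and `πY'` are equal, `0 ≤ k ≤ dim A`. -/
def IndependenceTimes : Prop :=
  ∀ (Λ : Type) [Field Λ] [CharZero Λ] (A : AbelianData Λ) (s : ℕ), IsAbelian A q s f →
    ∃ (J : Type) (_ : Fintype J) (c : J → ℕ) (D : J → A.CH), IsFamily A c D ∧
      ∀ (T : RelData A) (V : CorrData T), IsMurreTheory V (q ^ s) → DiagGenerated p Ω T →
        (∀ (n : ℤ) (x : T.M), T.DegM (2 * n) n x → ∃! z : J → T.N,
          (∀ t, T.DegN (2 * (n - c t)) (n - c t) (z t)) ∧ x = ∑ t, T.mul (D t) (z t)) ∧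
        ∀ (d : ℕ) (πY πY' : ℕ → V.CY), IsDecomposition V.cohN V.grH d πY →
          IsDecomposition V.cohN V.grH d πY' →
            IsDecomposition V.cohM V.grM (A.dim + d) (V.prodDec πY) ∧
            (∀ n ν x, x ∈ V.filtM πY n ν ↔
              ∃ z : J → T.N, (∀ t, z t ∈ V.filtN πY (n - c t) ν) ∧
                x = ∑ t, T.mul (D t) (z t)) ∧
            ∀ n ν : ℤ, V.filtM πY n ν = V.filtM πY' n ν ↔
              ∀ k : ℕ, k ≤ A.dim → V.filtN πY (n - k) ν = V.filtN πY' (n - k) ν

end

end Pool.Agent.V1168.EF
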