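import Mathlib
import Pool.Agent.V1168.EF.Murre
import Pool.Agent.V1168.EF.IndepDefs

/-!
# Independence of Murre's filtration from the decomposition
-/

set_option autoImplicit false
set_option linter.unusedSectionVars false
set_option linter.unusedVariables false

namespace Pool.Agent.V1168.EF

open Module Polynomial Pool.Agent.Y156.L Pool.Agent.W484.HS Pool.Agent.Y1.CT Pool.Agent.V1168.UN
  Pool.Agent.V1168.BB

section

variable {I : Type} {p : ℕ} {Ω : Finset ℂ} {q : ℕ} {f : I → ℤ[X]}

theorem independenceTimes (hq : 1 < q) (hR : NoRel f q (Generated p Ω)) :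
    IndependenceTimes p Ω q f := by
  classical
  intro Λ _ _ A s hA
  obtain ⟨J, hJ, c, D, E, hF, hdual, hQ, hmain⟩ := exists_classes hq hR hA
  refine ⟨J, hJ, c, D, hF, fun T V hVT hK => ?_⟩
  have hT := hVT.chow
  have hexp : ∀ (n : ℤ) (x : T.M), T.DegM (2 * n) n x →
      x = ∑ t, T.times (D t) (T.pair (E t) x) := by
    intro n x hx
    exact (hmain _ (isRel_diag hT) (generated_diag hK)).1 (2 * n) n x
      (isPure_diag hVT.pure (2 * n) n x ((degM_diag (T := T) n x).2 hx))
  have hpair : ∀ (t : J) (n : ℤ) (x : T.M), x ∈ T.grM (2 * n) n →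
      T.pair (E t) x ∈ T.grN (2 * (n - c t)) (n - c t) := by
    intro t n x hx
    have h1 := hT.pair_mem (c := c t) (by have := hdual.le t; omega) (hdual.right t) hx
    rwa [show 2 * n - 2 * (c t : ℤ) = 2 * (n - c t) by ring] at h1
  refine ⟨fun n x hx => ⟨fun t => T.pair (E t) x, ⟨fun t => ?_, hexp n x hx⟩, ?_⟩,
    fun d πY πY' hπ hπ' => ?_⟩
  · exact hpair t n x hx
  · rintro z ⟨-, hz⟩
    funext t
    rw [hz]
    exact (pair_sum hT hdual t z).symm
  have hM := murreConclusion hA hF hdual hVT hexp d πY hπ
  have hM' := murreConclusion hA hF hdual hVT hexp d πY' hπ'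
  -- one inclusion
  have key : ∀ (ρ ρ' : ℕ → V.CY), MurreConclusion V c D d ρ → MurreConclusion V c D d ρ' →
      ∀ n ν : ℤ, V.filtM ρ n ν ≤ V.filtM ρ' n ν ↔
        ∀ k : ℕ, k ≤ A.dim → V.filtN ρ (n - k) ν ≤ V.filtN ρ' (n - k) ν := by
    intro ρ ρ' h h' n ν
    constructor
    · intro hle k hk y hy
      obtain ⟨t, rfl⟩ := hF.exists_eq k hk
      have h1 : T.mul (D t) y ∈ V.filtM ρ n ν := by
        refine (h.filtration n ν _).2 ⟨fun u => if u = t then y else 0, fun u => ?_, ?_⟩
        · show (if u = t then y else 0) ∈ _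
          split_ifs with hu
          · subst hu
            exact hy
          · exact Submodule.zero_mem _
        · have h2 : ∀ u, T.mul (D u) (if u = t then y else 0) =
              if u = t then T.mul (D t) y else 0 := by
            intro u
            split_ifs with hu
            · rw [hu]
            · exact map_zero (T.times (D u))
          simp only [h2]
          rw [Finset.sum_ite_eq' Finset.univ t, if_pos (Finset.mem_univ t)]
      obtain ⟨z, hz1, hz2⟩ := (h'.filtration n ν _).1 (hle h1)
      have h3 : T.pair (E t) (T.times (D t) y) = y := by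
        have h4 := dualpair hT hdual t t y
        rwa [if_pos rfl] at h4
      have h5 : T.pair (E t) (∑ t, T.times (D t) (z t)) = z t := pair_sum hT hdual t z
      have h6 : T.times (D t) y = ∑ t, T.times (D t) (z t) := hz2
      rw [← h6, h3] at h5
      rw [h5]
      exact hz1 t
    · intro hle x hx
      obtain ⟨z, hz1, hz2⟩ := (h.filtration n ν x).1 hx
      exact (h'.filtration n ν x).2 ⟨z, fun t => hle (c t) (hF.le t) (hz1 t), hz2⟩
  refine ⟨hM.decomposition, hM.filtration, fun n ν => ⟨fun h k hk => ?_, fun h => ?_⟩⟩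
  · exact le_antisymm ((key πY πY' hM hM' n ν).1 h.le k hk)
      ((key πY' πY hM' hM n ν).1 h.ge k hk)
  · exact le_antisymm ((key πY πY' hM hM' n ν).2 fun k hk => (h k hk).le)
      ((key πY' πY hM' hM n ν).2 fun k hk => (h k hk).ge)

end

end Pool.Agent.V1168.EF
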