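import Mathlib
import Pool.Agent.V1168.EF.Base
import Pool.Agent.V1168.EF.HigherDefs
import Pool.Agent.V1168.UN.Thms

/-!
# Higher Chow groups and cohomology for products with all varieties: proofs
-/

set_option autoImplicit false
set_option linter.unusedSectionVars false
set_option linter.unusedVariables false

namespace Pool.Agent.V1168.EF

open Module Polynomial Pool.Agent.Y156.L Pool.Agent.W484.HS Pool.Agent.Y1.CT Pool.Agent.V1168.UN

section main

variable {I : Type} {p : ℕ} {Ω : Finset ℂ} {q : ℕ} (hq : 1 < q) {f : I → ℤ[X]}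
  (hR : NoRel f q (Generated p Ω))

include hq hR

theorem tateHigher : TateHigher p Ω q f := by
  intro Λ _ _ A s hA
  obtain ⟨J, hJ, c, D, E', hF, hdual, hQ, hmain⟩ := exists_classes hq hR hA
  refine ⟨J, hJ, c, D, hF, fun R hR hK => ?_⟩
  have hexp := (hmain R hR hK).1
  exact ⟨kunneth_of hQ hR hdual hexp, fun T ρ hT hc i j =>
    tate_iff hF hdual hQ hT hR hc hexp i j⟩

theorem beilinsonHigher : BeilinsonHigher p Ω q f := by
  intro Λ _ _ A s hA
  obtain ⟨J, hJ, c, D, E', hF, hdual, hQ, hmain⟩ := exists_classes hq hR hA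
  refine ⟨J, hJ, c, D, hF, fun T hT hpure hK => ?_⟩
  have hexp := (hmain T hT hK).1
  exact ⟨kunneth_of hQ hT hdual hexp, fun R ρ _ hc i j =>
    beilinson_iff hF hdual hT hc (fun i j m hm => hexp i j m (hpure i j m hm)) i j⟩

theorem parshinHigher : ParshinHigher p Ω q f := by
  intro Λ _ _ A s hA
  obtain ⟨J, hJ, c, D, E', hF, hdual, hQ, hmain⟩ := exists_classes hq hR hA
  refine ⟨J, hJ, c, D, hF, fun T hT hpure hK => ?_⟩
  have hexp := (hmain T hT hK).1
  refine ⟨kunneth_of hQ hT hdual hexp, fun i j => ?_⟩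
  have h1 := parshin_iff hF hdual hT (fun i j m hm => hexp i j m (hpure i j m hm)) i j
  simp only [Submodule.eq_bot_iff] at h1
  exact h1

theorem perfectHigher : PerfectHigher p Ω q f := by
  intro Λ _ _ A s hA
  obtain ⟨J, hJ, c, D, E', hF, hdual, hQ, hmain⟩ := exists_classes hq hR hA
  refine ⟨J, hJ, c, D, hF, fun T hT hpure hK => ?_⟩
  have hexp := (hmain T hT hK).1
  have hexp' := (hmain T hT hK).2.1
  exact ⟨kunneth_of hQ hT hdual hexp, fun B hB d i j =>
    perfect_iff hF hdual hT hB (fun i j m hm => hexp i j m (hpure i j m hm))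
      (fun i j m hm => hexp' i j m (hpure i j m hm)) d i j⟩

theorem semisimpleHigher : SemisimpleHigher p Ω q f := by
  intro Λ _ _ A s hA R hR' hP hK i j
  obtain ⟨J, hJ, c, D, E', hF, hdual, hQ, hmain⟩ := exists_classes hq hR hA
  exact semisimple_iff hF hdual hQ hR' ((hmain R hR' hK).2.2 hP).1 i j

theorem tateBeilinsonHigher : TateBeilinsonHigher p Ω q f := by
  intro Λ _ _ A s hA T R ρ hT hpure hKT hR' hP hK hc i j
  obtain ⟨J, hJ, c, D, E', hF, hdual, hQ, hmain⟩ := exists_classes hq hR hA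
  have h1 := tate_iff hF hdual hQ hT hR' hc (hmain R hR' hK).1 i j
  have h2 := beilinson_iff hF hdual hT hc
    (fun i j m hm => (hmain T hT hKT).1 i j m (hpure i j m hm)) i j
  have h3 := semisimple_iff hF hdual hQ hR' ((hmain R hR' hK).2.2 hP).1 i j
  unfold BijectiveM BijectiveN
  rw [h1, h2, h3]
  constructor
  · rintro ⟨⟨h4, h5⟩, h6⟩ k hk
    exact ⟨⟨h4 k hk, h5 k hk⟩, h6 k hk⟩
  · intro h4
    exact ⟨⟨fun k hk => (h4 k hk).1.1, fun k hk => (h4 k hk).1.2⟩, fun k hk => (h4 k hk).2⟩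

end main

end Pool.Agent.V1168.EF
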