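import Mathlib
import Pool.Agent.V1168.EF.WeilDefs
import Pool.Agent.V1168.UN.MotDefs
import Pool.Agent.V1168.UN.NCPDefs

/-!
# Products with all varieties: Chow groups, K-groups, noncommutative motives
-/

set_option autoImplicit false

open CategoryTheory AlgebraicGeometry

universe u v w

namespace Pool.Agent.V1168.EF

open Polynomial Pool.Agent.H914 Pool.Agent.H914.VarClass Pool.Agent.H914.VarClass.Obj
  Pool.Agent.W492.BB Pool.Agent.W484.CK Pool.Agent.Y1.CT
open Pool.Agent.V1168.UN (IsKTheory NCParshin)

section situation

variable {k : Type u} [Field k] {𝒱 : VarClass k} {C : TheoryData.{u, v, 0} 𝒱 ℚ} {F : Type w}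
  [Field F] (H : WeilTheoryData.{u, v, w} C F) {A Z : 𝒱.Obj}

/-- `πA` is the Frobenius endomorphism of an abelian variety `A` over the field with `q ^ s`
elements, isogenous to a product of powers of abelian varieties coming from the field with `q`
elements with characteristic polynomials `f i`; `Z` is any variety over the field with `q ^ s`
elements, such that the eigenvalues of its Frobenius endomorphism `πZ` on the cohomology are
generated by `Ω`, and such that homologically trivial
self-correspondences of `A × Z` of degree zero are nilpotent. -/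
structure IsNilpotentPair [CharZero F] (p : ℕ) (Ω : Finset ℂ) {I : Type} (q s : ℕ)
    (f : I → ℤ[X]) (πA : A ⟶ A) (πZ : Z ⟶ Z) : Prop where
  standard : IsStandard H
  pos : 0 < s
  abelian : IsAbelian H πA q s f
  generated : AreGenerated H p Ω πZ
  nilpotence : Nilpotence H (A.prod Z)

/-- The same situation without an assumption on homologically trivial correspondences; `πA × πZ`
acts on the Chow groups of `A × Z` in the usual way. -/
structure IsFrobeniusPair [CharZero F] (p : ℕ) (Ω : Finset ℂ) {I : Type} (q s : ℕ)
    (f : I → ℤ[X]) (πA : A ⟶ A) (πZ : Z ⟶ Z) : Prop where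
  standard : IsStandard H
  pos : 0 < s
  abelian : IsAbelian H πA q s f
  generated : AreGenerated H p Ω πZ
  frobenius : IsFrobenius C (prodMap πA πZ) (q ^ s)

end situation

section props

variable {I : Type} (p : ℕ) (Ω : Finset ℂ) (q : ℕ) (f : I → ℤ[X])

/-- `PairingProd p Ω q f`: the following holds for the Chow groups `C` with rational coefficients of
all classes `𝒱` of varieties over fields `k` (finite, in the intended use), every Weil cohomology
theory `H` with coefficients in an algebraically closed field `F` of characteristic zero and all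
`A`, `Z` as in `IsNilpotentPair`, where the Frobenius endomorphism `πA × πZ` of `A × Z` acts on its
Chow groups in the usual way: the Kunneth formula holds for the Chow groups of `A × Z`; rational and
numerical equivalence coincide on `A × Z` if and only if they coincide on `Z`; and for every `n` the
pairing `CH^n(A × Z)_ℝ × CH^(dim A + dim Z - n)(A × Z)_ℝ → ℝ` is perfect if and only if the pairings
`CH^m(Z)_ℝ × CH^(dim Z - m)(Z)_ℝ → ℝ` with `n - dim A ≤ m ≤ n` are perfect. -/
def PairingProd : Prop :=
  ∀ (k : Type) [Field k] (𝒱 : VarClass k) (C : TheoryData.{0, 0, 0} 𝒱 ℚ) [IsChow C]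
    (F : Type) [Field F] [IsAlgClosed F] [CharZero F] (H : WeilTheoryData.{0, 0, 0} C F)
    [IsWeil H] (s : ℕ) (A Z : 𝒱.Obj) (πA : A ⟶ A) (πZ : Z ⟶ Z),
      IsNilpotentPair H p Ω q s f πA πZ → IsFrobenius C (prodMap πA πZ) (q ^ s) →
        ChowKunneth C A Z ∧ (RatEqNum H (A.prod Z) ↔ RatEqNum H Z) ∧
        ∀ n : ℤ, PerfectAt C (A.prod Z) n ↔ ∀ m : ℤ, n - A.dim ≤ m → m ≤ n → PerfectAt C Z m

/-- `KGroupsProd p Ω q f`: for the Chow groups `C` with rational coefficients of all classes `𝒱` of
varieties over fields `k` (finite, in the intended use), every Weil cohomology theory `H` with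
coefficients in an algebraically closed field `F` of characteristic zero and all `A`, `Z` as in
`IsNilpotentPair` there are products `D j` of `deg j` divisor classes on `A`, finitely many, such
that the following holds for all `T` like the rational `K`-groups `K_m`, `m` arbitrary, for which
the Frobenius endomorphism of `A × Z` acts on `T^i(A × Z)` as multiplication by `q ^ (s i)`: one has
`T^i(A × Z) = ⨁ D j × T^(i - deg j)(Z)` for all `i`, and `T(A × Z) = 0` if and only if
`T(Z) = 0`. -/
def KGroupsProd : Prop :=
  ∀ (k : Type) [Field k] (𝒱 : VarClass k) (C : TheoryData.{0, 0, 0} 𝒱 ℚ) [IsChow C]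
    (F : Type) [Field F] [IsAlgClosed F] [CharZero F] (H : WeilTheoryData.{0, 0, 0} C F)
    [IsWeil H] (s : ℕ) (A Z : 𝒱.Obj) (πA : A ⟶ A) (πZ : Z ⟶ Z),
      IsNilpotentPair H p Ω q s f πA πZ →
        ∃ (J : Type) (_ : Fintype J) (deg : J → ℕ) (D : J → C.A A),
          (∀ j, DivisorProduct C (deg j) (D j)) ∧ ∀ T : MotivicData C,
            Y159.Par.IsRationalKGroup T →
            ActsAsPower T (prodMap πA πZ) (q ^ s) → HasKunneth T A Z deg D ∧
              (Y159.Par.Parshin T (A.prod Z) ↔ Y159.Par.Parshin T Z)

/-- `NCNumProd p Ω q f`: in the same situation, where `πA × πZ` acts on the Chow groups of `A × Z` in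
the usual way, there are products `D j` of `deg j` divisor classes on `A`, finitely many, such that
for all direct summands `(Z, e)` of the noncommutative motive of `Z`: the Kunneth formula
`K_0(A × Z, 1 × e)_ℚ = ⨁ D j × K_0(Z, e)_ℚ` holds, the same for the kernels of the Euler
pairings, and the Euler pairing of `K_0(A × Z, 1 × e)_ℚ` is nondegenerate if and only if the
one of `K_0(Z, e)_ℚ` is. -/
def NCNumProd : Prop :=
  ∀ (k : Type) [Field k] (𝒱 : VarClass k) (C : TheoryData.{0, 0, 0} 𝒱 ℚ) [IsChow C],
    IsoInvariant C → ∀ (F : Type) [Field F] [IsAlgClosed F] [CharZero F]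
    (H : WeilTheoryData.{0, 0, 0} C F) [IsWeil H] (s : ℕ) (A Z : 𝒱.Obj) (πA : A ⟶ A)
    (πZ : Z ⟶ Z), IsNilpotentPair H p Ω q s f πA πZ → IsFrobenius C (prodMap πA πZ) (q ^ s) →
      ∃ (J : Type) (_ : Fintype J) (deg : J → ℕ) (D : J → C.A A),
        (∀ j, DivisorProduct C (deg j) (D j)) ∧ ∀ e : C.A (Z.prod Z), IsIdempotent C e →
          KZeroKunneth H A e D ∧ (IsNondegenerate H (relative C A e) ↔ IsNondegenerate H e)

/-- `NCTateProd p Ω q f`: for the Chow groups `C` with rational coefficients of all classes `𝒱` of
varieties over fields `k` (finite, in the intended use), every Weil cohomology theory `H` with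
coefficients in an algebraically closed field `F` of characteristic zero and all `A`, `Z` as in
`IsFrobeniusPair` there are products `D j` of `deg j` divisor classes on `A`, finitely many, such
that the following holds for all direct summands `(Z, e)` of the noncommutative motive of `Z`: the
Kunneth formula for the Frobenius invariants in the cohomology of `(A × Z, 1 × e)` holds, and the
Tate conjecture holds for `(A × Z, 1 × e)` if and only if it holds for `(Z, e)`. -/
def NCTateProd : Prop :=
  ∀ (k : Type) [Field k] (𝒱 : VarClass k) (C : TheoryData.{0, 0, 0} 𝒱 ℚ) [IsChow C],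
    IsoInvariant C → ∀ (F : Type) [Field F] [IsAlgClosed F] [CharZero F]
    (H : WeilTheoryData.{0, 0, 0} C F) [IsWeil H] (s : ℕ) (A Z : 𝒱.Obj) (πA : A ⟶ A)
    (πZ : Z ⟶ Z), IsFrobeniusPair H p Ω q s f πA πZ →
      ∃ (J : Type) (_ : Fintype J) (deg : J → ℕ) (D : J → C.A A),
        (∀ j, DivisorProduct C (deg j) (D j)) ∧ ∀ e : C.A (Z.prod Z), IsIdempotent C e →
          TateKunneth H πA πZ (q ^ s) e D ∧
            (NCTateConjecture H (prodMap πA πZ) (q ^ s) (relative C A e) ↔
              NCTateConjecture H πZ (q ^ s) e)

/-- `NCHomProd p Ω q f`: in the same situation there are products `D j` of `deg j` divisor classes on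
`A`, finitely many, such that the following holds for all direct summands `(Z, e)` of the
noncommutative motive of `Z`: the Kunneth formula `K_0(A × Z, 1 × e)_ℚ = ⨁ D j × K_0(Z, e)_ℚ` holds
modulo homological equivalence, the same for the kernels of the Euler pairings, and homological and
numerical equivalence coincide on `K_0(A × Z, 1 × e)_ℚ` if and only if they coincide on
`K_0(Z, e)_ℚ`. -/
def NCHomProd : Prop :=
  ∀ (k : Type) [Field k] (𝒱 : VarClass k) (C : TheoryData.{0, 0, 0} 𝒱 ℚ) [IsChow C],
    IsoInvariant C → ∀ (F : Type) [Field F] [IsAlgClosed F] [CharZero F]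
    (H : WeilTheoryData.{0, 0, 0} C F) [IsWeil H] (s : ℕ) (A Z : 𝒱.Obj) (πA : A ⟶ A)
    (πZ : Z ⟶ Z), IsFrobeniusPair H p Ω q s f πA πZ →
      ∃ (J : Type) (_ : Fintype J) (deg : J → ℕ) (D : J → C.A A),
        (∀ j, DivisorProduct C (deg j) (D j)) ∧ ∀ e : C.A (Z.prod Z), IsIdempotent C e →
          HomKunneth H A e D ∧ (HomEqNum H (relative C A e) ↔ HomEqNum H e)

/-- `NCParshinProd p Ω q f`: for the Chow groups `C` with rational
coefficients of all classes `𝒱` of varieties over fields `k` (finite, in the intended use), every Weil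
cohomology theory `H` with coefficients in an algebraically closed field `F` of characteristic zero
and all `A`, `Z` as in `IsNilpotentPair` there are products `D j` of `deg j` divisor classes
on `A`, finitely many, such that for the rational `K`-groups `T n = K_n`, `n ≥ 0`, and all direct
summands `(Z, e)` of the noncommutative motive of `Z`: the Kunneth formula
`K_n(A × Z, 1 × e)_ℚ = ⨁ D j × K_n(Z, e)_ℚ` holds for all `n ≥ 0`, for each `n` the group
`K_n(A × Z, 1 × e)_ℚ` is zero if and only if `K_n(Z, e)_ℚ` is zero, and the noncommutative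
conjecture of Parshin holds for `(A × Z, 1 × e)` if and only if it holds for `(Z, e)`. -/
def NCParshinProd : Prop :=
  ∀ (k : Type) [Field k] (𝒱 : VarClass k) (C : TheoryData.{0, 0, 0} 𝒱 ℚ) [IsChow C],
    IsoInvariant C → ∀ (F : Type) [Field F] [IsAlgClosed F] [CharZero F]
    (H : WeilTheoryData.{0, 0, 0} C F) [IsWeil H] (s : ℕ) (A Z : 𝒱.Obj) (πA : A ⟶ A)
    (πZ : Z ⟶ Z), IsNilpotentPair H p Ω q s f πA πZ →
      ∃ (J : Type) (_ : Fintype J) (deg : J → ℕ) (D : J → C.A A),
        (∀ j, DivisorProduct C (deg j) (D j)) ∧ ∀ T : ℕ → MotivicData C,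
          IsKTheory T (prodMap πA πZ) (q ^ s) → ∀ e : C.A (Z.prod Z), IsIdempotent C e →
            (∀ n, (T n).KunnethFor A e D) ∧
            (∀ n, (T n).Trivial (relative C A e) ↔ (T n).Trivial e) ∧
              (NCParshin T (relative C A e) ↔ NCParshin T e)

end props

end Pool.Agent.V1168.EF
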