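import Mathlib
import Pool.Agent.V1168.EF.Props
import Pool.Agent.V1168.UN.Diag

/-!
# Cycle class maps for products with all varieties: definitions
-/

set_option autoImplicit false

namespace Pool.Agent.V1168.EF

open Polynomial Pool.Agent.Y156.L Pool.Agent.Y1.CT Pool.Agent.V1168.UN

section

variable {I : Type} (p : ℕ) (Ω : Finset ℂ) (q : ℕ) (f : I → ℤ[X])

/-- `CycleMapTimes p Ω q f`: for every abelian variety `A` as in `IsAbelian`, all `T` (Chow groups) and
`R` (`ℓ`-adic homology or cohomology) relative to any scheme `U`, with the formal properties, and the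
cycle class map from `T` to `R`, where the Frobenius endomorphism of `A × U` acts in the usual way on
the Chow groups and the one of `U` is generated by `Ω` on the groups of `T` and `R` in
the bidegrees `(2 c, c)`, and all `c`: the cycle class map of `A × U` in codimension `c` is a
bijection onto the Frobenius invariants if and only if those of `U` in the codimensions `c - k`,
`0 ≤ k ≤ dim A`, are. -/
def CycleMapTimes : Prop :=
  ∀ (Λ : Type) [Field Λ] [CharZero Λ] (A : AbelianData Λ) (s : ℕ), IsAbelian A q s f →
    ∀ (T R : RelData A) (ρ : Regulator T R), IsRel (q ^ s) T → IsPureDiag T (q ^ s) →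
      DiagGenerated p Ω T → IsRel (q ^ s) R → DiagGenerated p Ω R → IsRegulator ρ → ∀ c : ℤ,
        CycleMapBijectiveM ρ (q ^ s) c ↔
          ∀ k : ℕ, k ≤ A.dim → CycleMapBijectiveN ρ (q ^ s) (c - k)

/-- `CycleMapSemisimpleTimes p Ω q f`: in the situation of `CycleMapTimes` (with Frobenius
endomorphisms which preserve the degrees of `R`), for all `c`: the cycle class map of `A × U` in
codimension `c` is a bijection onto the Frobenius invariants and the eigenvalue `Q ^ c` of Frobenius
on `H^(2 c)` is semisimple, if and only if the same is true for `U` in the codimensions `c - k`,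
`0 ≤ k ≤ dim A`. And without any assumption on Chow groups: the eigenvalue `Q ^ c` of Frobenius is
semisimple on `H^(2 c)(A × U)` if and only if the eigenvalues `Q ^ (c - k)` on `H^(2 (c - k))(U)` are,
`0 ≤ k ≤ dim A`. -/
def CycleMapSemisimpleTimes : Prop :=
  ∀ (Λ : Type) [Field Λ] [CharZero Λ] (A : AbelianData Λ) (s : ℕ), IsAbelian A q s f →
    ∀ R : RelData A, IsRel (q ^ s) R → PreservesDegrees R → DiagGenerated p Ω R → ∀ c : ℤ,
      (SemisimpleM R (q ^ s) (2 * c) c ↔
        ∀ k : ℕ, k ≤ A.dim → SemisimpleN R (q ^ s) (2 * (c - k)) (c - k)) ∧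
      ∀ (T : RelData A) (ρ : Regulator T R), IsRel (q ^ s) T → IsPureDiag T (q ^ s) →
        DiagGenerated p Ω T → IsRegulator ρ →
        ((CycleMapBijectiveM ρ (q ^ s) c ∧ SemisimpleM R (q ^ s) (2 * c) c) ↔
          ∀ k : ℕ, k ≤ A.dim → CycleMapBijectiveN ρ (q ^ s) (c - k) ∧
            SemisimpleN R (q ^ s) (2 * (c - k)) (c - k))

end

end Pool.Agent.V1168.EF
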