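import Mathlib
import Pool.Agent.V1168.EF.Base
import Pool.Agent.V1168.EF.IsoDefs
import Pool.Agent.V1168.BB.Iso

/-!
# The isomorphism of Tate for products with all varieties
-/

set_option autoImplicit false
set_option linter.unusedSectionVars false
set_option linter.unusedVariables false

namespace Pool.Agent.V1168.EF

open Module Polynomial Pool.Agent.Y156.L Pool.Agent.W484.HS Pool.Agent.Y1.CT Pool.Agent.V1168.UN
  Pool.Agent.V1168.BB

section

variable {I : Type} {p : ℕ} {Ω : Finset ℂ} {q : ℕ} {f : I → ℤ[X]}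

theorem diagGenerated_of {Λ : Type} [Field Λ] {A : AbelianData Λ} {T R : RelData A}
    {ρ : Regulator T R} {Q : ℕ} (hT : IsRel Q T) (hρ : IsClassMap ρ) (h : DiagGenerated p Ω R) :
    DiagGenerated p Ω T := by
  intro c
  obtain ⟨χ, h1, h2, h3⟩ := h c
  refine ⟨χ, h1, h2, fun m hm => ?_⟩
  have hpow : ∀ l : ℕ, T.DegM (2 * c) c ((T.frobM ^ l) m) ∧
      ρ.cM ((T.frobM ^ l) m) = (R.frobM ^ l) (ρ.cM m) := by
    intro l
    induction l with
    | zero => exact ⟨hm, rfl⟩
    | succ l ih =>
      rw [pow_succ', pow_succ', Module.End.mul_apply, Module.End.mul_apply, ← ih.2]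
      exact ⟨hT.frobenius.FM_mem ih.1, hρ.frob _⟩
  have h4 : ρ.cM (aeval T.frobM χ m) = aeval R.frobM χ (ρ.cM m) := by
    rw [aeval_eq_sum_range, aeval_eq_sum_range, LinearMap.sum_apply, LinearMap.sum_apply, map_sum]
    refine Finset.sum_congr rfl fun l _ => ?_
    rw [LinearMap.smul_apply, LinearMap.smul_apply, map_smul, (hpow l).2]
  refine hρ.injective (j := c) ?_ ?_
  · rw [aeval_eq_sum_range, LinearMap.sum_apply]
    exact Submodule.sum_mem _ fun l _ => Submodule.smul_mem _ _ (hpow l).1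
  · change ρ.cM (aeval T.frobM χ m) = 0
    rw [h4]
    exact h3 _ (hρ.regulator.memM hm)

/-- **The isomorphism conjectured by Tate, for products.** -/
theorem tateIsoTimes (hq : 1 < q) (hR : NoRel f q (Generated p Ω)) : TateIsoTimes p Ω q f := by
  classical
  intro Λ _ _ A s hA L _ _ V hV hK j
  obtain ⟨T, R, ρ, Z⟩ := V
  obtain ⟨hT, hpure, hR', hρ, hL, hZ⟩ := hV
  obtain ⟨J, hJ, c, D, E, hF, hdual, hQ, hmain⟩ := exists_classes hq hR hA
  have hKT := diagGenerated_of hT hρ hK
  have hT1 := isRel_diag hT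
  have hR1 := isRel_diag hR'
  -- the expansions
  have hexpR : ∀ m : R.M, R.InvM (q ^ s) (2 * j) j m →
      m = ∑ t, R.times (D t) (R.pair (E t) m) := by
    intro m hm
    exact (hmain _ hR1 (generated_diag hK)).1 (2 * j) j m
      ⟨(degM_diag (T := R) j m).2 hm.1, hm.2⟩
  have hexpT : ∀ m : T.M, T.DegM (2 * j) j m → m = ∑ t, T.times (D t) (T.pair (E t) m) := by
    intro m hm
    exact (hmain _ hT1 (generated_diag hKT)).1 (2 * j) j m
      (isPure_diag hpure (2 * j) j m ((degM_diag (T := T) j m).2 hm))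
  -- the integral classes
  choose nD hnD hD using fun t => hZ.multiple (hdual.left t)
  choose nE hnE hE using fun t => hZ.multiple (hdual.right t)
  let N : ℕ := ∏ t, nD t * nE t
  have hN : N ≠ 0 := Finset.prod_ne_zero_iff.2 fun t _ => mul_ne_zero (hnD t) (hnE t)
  -- cofactors
  have hcof : ∀ t, ∃ k : ℕ, N = nD t * nE t * k := by
    intro t
    exact Finset.dvd_prod_of_mem _ (Finset.mem_univ t)
  choose k hk using hcof
  let X : J → A.CH := fun t => k t • (nD t • D t)
  let Y : J → A.CH := fun t => nE t • E t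
  have hX : ∀ t, X t ∈ Z.zA (c t) := fun t => AddSubgroup.nsmul_mem _ (hD t) _
  have hY : ∀ t, Y t ∈ Z.zA (A.dim - c t) := hE
  -- the maps
  let a : J → R.N →ₗ[L] R.M := fun t =>
    { toFun := fun n => R.times (X t) n
      map_add' := fun x y => map_add _ x y
      map_smul' := fun l x => hL.mul_smul (X t) l x }
  let b : J → R.M →ₗ[L] R.N := fun t =>
    { toFun := fun n => R.pair (Y t) n
      map_add' := fun x y => map_add _ x y
      map_smul' := fun l x => hL.push_smul (Y t) l x }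
  have haeq : ∀ t n, a t n = (k t * nD t) • R.times (D t) n := by
    intro t n
    change R.times (k t • (nD t • D t)) n = _
    rw [map_nsmul, map_nsmul, LinearMap.smul_apply, LinearMap.smul_apply, smul_smul]
  have hbeq : ∀ t m, b t m = nE t • R.pair (E t) m := by
    intro t m
    change R.pair (nE t • E t) m = _
    rw [map_nsmul, LinearMap.smul_apply]
  have hNt : ∀ t, nE t * (k t * nD t) = N := fun t => by rw [hk t]; ring
  have hba : ∀ t x, b t (a t x) = N • x := by
    intro t x
    rw [hbeq, haeq, map_nsmul, dualpair hR' hdual t t x, if_pos rfl, smul_smul, hNt]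
  have hab : ∀ x : R.M, x = ∑ t, R.times (D t) (R.pair (E t) x) →
      ∑ t, a t (b t x) = N • x := by
    intro x hx
    conv_rhs => rw [hx]
    rw [Finset.smul_sum]
    refine Finset.sum_congr rfl fun t _ => ?_
    rw [haeq, hbeq, map_nsmul, smul_smul, mul_comm (k t * nD t), hNt]
  have ha : ∀ t, ∀ x ∈ classesN ρ Z (j - c t), a t x ∈ classesM ρ Z j := by
    rintro t x ⟨n, hn, rfl⟩
    refine ⟨T.mul (X t) n, ?_, hρ.regulator.mul (X t) n⟩
    have h1 := hZ.mul_mem (hX t) hn
    rwa [sub_add_cancel] at h1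
  have hb : ∀ t, ∀ x ∈ classesM ρ Z j, b t x ∈ classesN ρ Z (j - c t) := by
    rintro t x ⟨m, hm, rfl⟩
    exact ⟨T.push (Y t) m, hZ.push_mem (by have := hdual.le t; omega) (hY t) hm,
      hρ.regulator.push (Y t) m⟩
  have hab' : ∀ x ∈ classesM ρ Z j, ∑ t, a t (b t x) = N • x := by
    rintro x ⟨m, hm, rfl⟩
    refine hab _ ?_
    change ρ.cM m = _
    conv_lhs => rw [hexpT m (hZ.codimM hm)]
    rw [map_sum]
    refine Finset.sum_congr rfl fun t _ => ?_
    have h1 : ρ.cM (T.times (D t) (T.pair (E t) m)) = R.times (D t) (ρ.cN (T.pair (E t) m)) :=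
      hρ.regulator.mul _ _
    have h2 : ρ.cN (T.pair (E t) m) = R.pair (E t) (ρ.cM m) := hρ.regulator.push _ _
    rw [h1, h2]
    rfl
  -- the invariants
  have hPa : ∀ t x, R.InvN (q ^ s) (2 * (j - c t)) (j - c t) x →
      R.InvM (q ^ s) (2 * j) j (a t x) := by
    intro t x hx
    have h1 := inv_times hQ hR' (hdual.left t) hx
    rw [show 2 * (j - (c t : ℤ)) + 2 * c t = 2 * j by ring, sub_add_cancel] at h1
    rw [haeq]
    exact (mem_invSub (T := R)).1 ((invSub R (q ^ s) (2 * j) j).nsmul_mem h1 _)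
  have hPb : ∀ t x, R.InvM (q ^ s) (2 * j) j x →
      R.InvN (q ^ s) (2 * (j - c t)) (j - c t) (b t x) := by
    intro t x hx
    have h1 := inv_pair hQ hR' hdual hx (hexpR x hx) t
    rw [invN_iff] at h1 ⊢
    rw [hbeq, show 2 * (j - (c t : ℤ)) = 2 * j - 2 * c t by ring]
    refine ⟨Submodule.smul_of_tower_mem _ _ h1.1, ?_⟩
    rw [map_nsmul, h1.2, smul_comm]
  have hswap : ∀ P : ℤ → Prop, (∀ t, P (j - c t)) ↔ ∀ k : ℕ, k ≤ A.dim → P (j - k) := by
    intro P
    constructor
    · intro h k hk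
      obtain ⟨t, rfl⟩ := hF.exists_eq k hk
      exact h t
    · intro h t
      exact h _ (hdual.le t)
  have hfin := (finite_lattice_iff (L := L) hN ha hb hba hab').trans
    (hswap fun i => Module.Finite ℤ (classesN ρ Z i))
  have hinj := (injective_lattice_iff (L := L) hN ha hb hba hab').trans
    (hswap fun i => Function.Injective (sMap L (classesN ρ Z i)))
  have hsur := (surjective_lattice_iff (L := L) hN ha hb hba hPa hPb
    (fun x hx => hab x (hexpR x hx))).trans
    (hswap fun i => ∀ w : R.N, R.InvN (q ^ s) (2 * i) i w →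
      ∃ t, sMap L (classesN ρ Z i) t = w)
  refine ⟨hfin, hinj, ?_⟩
  refine (and_congr hfin (and_congr hinj hsur)).trans ?_
  constructor
  · rintro ⟨h1, h2, h3⟩ k hk
    exact ⟨h1 k hk, h2 k hk, h3 k hk⟩
  · intro h
    exact ⟨fun k hk => (h k hk).1, fun k hk => (h k hk).2.1, fun k hk => (h k hk).2.2⟩

end

end Pool.Agent.V1168.EF
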