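import Mathlib
import Pool.Agent.V1168.EF.SingDefs
import Pool.Agent.V1168.EF.Span
import Pool.Agent.V1168.EF.Iso

/-!
# The conjecture of Tate for singular and open varieties: proofs
-/

set_option autoImplicit false

namespace Pool.Agent.V1168.EF

open Polynomial Module Pool.Agent.Y156.L Pool.Agent.Y1.CT Pool.Agent.V1168.BB

variable {I : Type} {p : ℕ} {Ω : Finset ℂ} {q : ℕ} {f : I → ℤ[X]}

theorem reindex {g : ℕ} {e j : ℤ} {P : ℤ → Prop} :
    (∀ k : ℕ, k ≤ g → P (e + g - j - k)) ↔ ∀ k : ℕ, k ≤ g → P (e - (j - k)) := by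
  constructor
  · intro h k hk
    have h1 := h (g - k) (Nat.sub_le _ _)
    rw [Nat.cast_sub hk] at h1
    rwa [show e - (j - (k : ℤ)) = e + g - j - (g - k) by ring]
  · intro h k hk
    have h1 := h (g - k) (Nat.sub_le _ _)
    rw [Nat.cast_sub hk] at h1
    rwa [show e + (g : ℤ) - j - k = e - (j - (g - k)) by ring]

theorem tateHomologyTimes (hq : 1 < q) (hR : NoRel f q (Generated p Ω)) :
    TateHomologyTimes p Ω q f := by
  intro Λ _ _ A s hA
  obtain ⟨J, hJ, c, D, hD, h⟩ := tateSpanTimes hq hR Λ A s hA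
  refine ⟨J, hJ, c, D, hD, fun L _ V hV hd e j => ?_⟩
  obtain ⟨h1, h2⟩ := h L V hV hd (e + A.dim - j)
  refine ⟨fun w hw => ?_, ?_⟩
  · obtain ⟨z, ⟨hz1, hz2⟩, hz3⟩ := h1 w hw
    have he : ∀ t, e - (j - ((A.dim : ℤ) - c t)) = e + A.dim - j - c t := fun t => by ring
    refine ⟨z, ⟨fun t => ?_, hz2⟩, fun y hy => hz3 y ⟨fun t => ?_, hy.2⟩⟩
    · unfold InvariantN
      rw [he t]
      exact hz1 t
    · have h3 := hy.1 t
      unfold InvariantN at h3
      rw [he t] at h3
      exact h3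
  · exact h2.trans (reindex (P := fun c => TateN V (q ^ s) c))

theorem bijectiveHomologyTimes (hq : 1 < q) (hR : NoRel f q (Generated p Ω)) :
    BijectiveHomologyTimes p Ω q f := by
  intro Λ _ _ A s hA L _ _ V hV hd e j
  obtain ⟨h1, h2, h3⟩ := tateIsoTimes hq hR Λ A s hA L V hV hd (e + A.dim - j)
  exact ⟨h1.trans (reindex (P := fun c => FinGenN V c)),
    h2.trans (reindex (P := fun c => TensorInjN V c)),
    h3.trans (reindex (P := fun c => TateIsoN V (q ^ s) c))⟩

theorem singularTateTimes (hq : 1 < q) (hR : NoRel f q (Generated p Ω)) :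
    SingularTateTimes p Ω q f := ⟨tateHomologyTimes hq hR, bijectiveHomologyTimes hq hR⟩

end Pool.Agent.V1168.EF
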