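import Mathlib
import Pool.Agent.V1168.EF.WeilDefs
import Pool.Agent.Y1.CT.CodimNum

/-!
# Homological and numerical equivalence in one codimension, for products with all varieties: proofs
-/

set_option autoImplicit false

open CategoryTheory AlgebraicGeometry

universe u v w

namespace Pool.Agent.V1168.EF

open Module Polynomial Pool.Agent.H914 Pool.Agent.H914.VarClass Pool.Agent.H914.VarClass.Obj
  Pool.Agent.W492.BB Pool.Agent.W550.Corr Pool.Agent.W484.HS Pool.Agent.W484.CH Pool.Agent.Y1.CT

theorem homNumTimes {I : Type} {p : ℕ} {Ω : Finset ℂ} {q : ℕ} (hq : 1 < q) {f : I → ℤ[X]}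
    (hR : NoRel f q (Generated p Ω)) : HomNumTimes p Ω q f := by
  intro k _ 𝒱 C _ F _ _ _ H _ s A Z πA πZ hsit hF c
  obtain ⟨J, hJ, deg, D, E', hne, hdual, hD, hK⟩ := kunneth_gen hq hR
    (W484.CK.isStandard_bridge hsit.standard) hsit.pos (W484.CK.isAbelian_bridge hsit.abelian)
    (πZ := πZ) hsit.generated
  have hQ : q ^ s ≠ 0 := pow_ne_zero _ (by omega)
  have hπA := W484.CK.isFrobenius_bridge hsit.abelian.frobenius
  exact homNumIn_prod_iff (W484.CK.isStandard_bridge hsit.standard) hdual hQ hπA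
    (W484.CK.isFrobenius_bridge hF) hK hD c

end Pool.Agent.V1168.EF
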