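import Mathlib
import Pool.Agent.V1168.EF.Props
import Pool.Agent.V1168.BB.ZetaDefs

/-!
# Zeta functions and higher Chow groups of products with all schemes: definitions
-/

set_option autoImplicit false

namespace Pool.Agent.V1168.EF

open Polynomial Module Pool.Agent.Y156.L Pool.Agent.Y1.CT Pool.Agent.V1168.BB

section

variable {A : AbelianData ℂ} (T : RelData A)

/-- The Frobenius numbers of `U` are generated by `Ω`: on each group `T^i(A × U, j)` the Frobenius endomorphism of
`U` satisfies a nonzero rational polynomial with roots generated by `Ω`, and the zeta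
function has a meromorphic continuation with zeros and poles only at points `s` with `Q^s`
generated by `Ω`. -/
structure SchemeGenerated (p : ℕ) (Ω : Finset ℂ) (U : PointData) (Q : ℕ) :
    Prop where
  motivic : ∀ i j : ℤ, ∃ χ : ℚ[X], χ ≠ 0 ∧ (∀ ρ : ℂ, aeval ρ χ = 0 → Generated p Ω ρ) ∧
    ∀ m, T.DegM i j m → aeval T.frobM χ m = 0
  zeta : ∃ Λ, IsContinuation (U.factor Q) Λ ∧
    ∀ s : ℂ, meromorphicOrderAt Λ s ≠ 0 → Generated p Ω ((Q : ℂ) ^ s)

end

section

variable {I : Type} (p : ℕ) (Ω : Finset ℂ) (q : ℕ) (f : I → ℤ[X])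

/-- `SouleTimes p Ω q f`: for every abelian variety `A` as in `IsAbelian` over the field with
`Q = q ^ s` elements there are finitely many products `D t` of `c t` divisor classes on `A`, such that
for every scheme `U` of finite type over the field with `Q` elements, of dimension `d`, with the
properties `IsSchemeTheory` and `SchemeGenerated`:

1. every element of `CH^r(A × U, i)` is in a unique way the sum of the products of the `D t` with
  elements of `CH^(r - c t)(U, i)`;
2. the zeta function of `A × U` has a meromorphic continuation, and its order at `s = dim A + d - r` is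
  the sum over `t` of the orders of the zeta function of `U` at `s = d - (r - c t)`;
3. for all `n`, the formula of Bloch and Soulé holds for `A × U` and all `r ≤ n` if and only if it
  holds for `U` and all `r ≤ n`. -/
def SouleTimes : Prop :=
  ∀ (A : AbelianData ℂ) (s : ℕ), IsAbelian A q s f →
    ∃ (J : Type) (_ : Fintype J) (c : J → ℕ) (D : J → A.CH), IsFamily A c D ∧
      ∀ φ : CohData A, IsCoh φ → ∀ (T : RelData A) (U X : PointData) (d : ℕ),
        IsProductPoints φ U X → IsSchemeTheory T U (q ^ s) d → SchemeGenerated T p Ω U (q ^ s) →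
        (∀ (r : ℤ) (i : ℕ) (m : T.M), T.DegM (2 * r - i) r m → ∃! z : J → T.N,
          (∀ t, T.DegN (2 * (r - c t) - i) (r - c t) (z t)) ∧ m = ∑ t, T.mul (D t) (z t)) ∧
        (∃ Λ, IsContinuation (X.factor (q ^ s)) Λ) ∧
        (∀ (r : ℤ) (Λ Λ' : ℂ → ℂ), IsContinuation (X.factor (q ^ s)) Λ →
          IsContinuation (U.factor (q ^ s)) Λ' →
          meromorphicOrderAt Λ ((A.dim + d - r : ℤ) : ℂ) =
            ∑ t, meromorphicOrderAt Λ' ((d - (r - c t) : ℤ) : ℂ)) ∧
        ∀ n : ℤ, (∀ r ≤ n, SouleM T X (q ^ s) d r) ↔ ∀ r ≤ n, SouleN T U (q ^ s) d r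

end

end Pool.Agent.V1168.EF
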