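import Mathlib
import Pool.Agent.V1168.EF.Props
import Pool.Agent.V1168.BB.IntDefs

/-!
# Finite generation of Weil-étale motivic cohomology of products with all varieties: definitions
-/

set_option autoImplicit false

namespace Pool.Agent.V1168.EF

open Polynomial Module Pool.Agent.Y156.L Pool.Agent.Y1.CT Pool.Agent.V1168.BB

section

variable {Λ : Type} [Field Λ] {A : AbelianData Λ} {Z : IntegralData A} (T : IntTheory Z)

/-- The Frobenius endomorphism of `Y` satisfies on each group `H^i(A × Y, ℤ(j))` a nonzero polynomial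
with integral coefficients all of whose complex roots are generated by `Ω`. -/
def IntGenerated (p : ℕ) (Ω : Finset ℂ) : Prop :=
  ∀ i j : ℤ, ∃ χ : ℤ[X], χ ≠ 0 ∧ (∀ ρ : ℂ, aeval ρ χ = 0 → Generated p Ω ρ) ∧
    ∀ m ∈ T.grM i j, aeval T.frobM χ m = 0

end

section

variable {I : Type} (p : ℕ) (Ω : Finset ℂ) (q : ℕ) (f : I → ℤ[X])

/-- `FGTimes p Ω q f P`: for every abelian variety `A` as in `IsAbelian` over the field with `Q = q ^ s`
elements and every theory `T` relative to a scheme `Y` over the field with `Q` elements, with the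
properties `IsIntTheory` and `IntGenerated`, the conclusion `P` holds. -/
def FGTimes (P : ∀ {Λ : Type} [Field Λ] {A : AbelianData Λ} {Z : IntegralData A},
    IntTheory Z → Prop) : Prop :=
  ∀ (Λ : Type) [Field Λ] [CharZero Λ] (A : AbelianData Λ) (s : ℕ), IsAbelian A q s f →
    ∀ (Z : IntegralData A) (T : IntTheory Z), IsIntTheory T (q ^ s) → IntGenerated T p Ω → P T

/-- `FGTimes` with the conclusions `FGEquiv` and `LEquiv`. -/
def WeilEtaleTimes : Prop := FGTimes p Ω q f fun T => FGEquiv T ∧ LEquiv T

end

end Pool.Agent.V1168.EF
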